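import Pool.Agent.Helper13.M.Defs
import Pool.Agent.Helper13.M.DefsC
import Pool.Agent.Helper13.M.G1M

/-!
# Project TW (MP_e66f84_ag), arithmetic half: quadratic twists with one rational branch point

`Geo k K0 E U h r` as in project M; `b₀` a branch place which is fixed by all actions, no other
branch place is.  For almost all `c`: for every action `Φ` of the twist by `c`, all `Φ σ` fix a
place above `b₀` of a given level `N'` of exponent two over `L0` (`StmtLVL`).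
-/

set_option autoImplicit false

namespace Pool.Agent.TW

open VC Filter Topology NumberField IsDedekindDomain IntermediateField Pool.Agent.SC Pool.Agent.L
open Pool.Agent.M (OverPl Moves BPl IsZ NN NZ UR sgn IntDat QM)
open Pool.Agent.HG (Pr nm IsOdd Ctx Gd DatM Special BTR BadT StmtSel StmtMert StmtSplit StmtBTR
  StmtBTLR ggM)
open Pool.Agent.Helper99.HG (CD pf Nm BT TA Sys)

noncomputable section

/-! ## The counting theorems: the conditions at the components outside `J` are prescribed -/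

section count

variable {k : ℕ} {G : Type}

open scoped Classical in
/-- the weight of the prime `p` for the set of components `J`, where the products over the
components outside `J` are given -/
def WJt (D : CD k G) (J : Finset (Fin k)) (t : Fin k → D.ι → G) (p : D.P) : ℝ :=
  ∑ o ∈ (D.V p).filter (fun o => D.cmp o ∈ J ∧ ∀ j, j ∉ J → ∀ i ∈ D.I p o j, t j i = D.g p o i),
    (1 / 2 : ℝ) ^ (∑ j ∈ J, (D.I p o j).card)

/-- the weights are less than `1` in the mean, uniformly in the given products -/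
def TBt (D : CD k G) (J : Finset (Fin k)) : Prop :=
  J.Nonempty ∧ ∃ δ C : ℝ, 0 < δ ∧ ∀ y x : ℕ, 2 ≤ y → y ≤ x → ∀ t : D.P → Fin k → D.ι → G,
    ∀ S : Finset D.P, (∀ p, p ∈ S ↔ p ∉ D.Ex ∧ y < D.nm p ∧ D.nm p ≤ x) →
    ∑ p ∈ S, WJt D J (t p) p / D.nm p ≤ (1 - δ) * (Real.log (Real.log x) - Real.log (Real.log y)) + C

/-- BLOCK CNt: the primes with option outside `j₀` are not all small. -/
def StmtCountNt : Prop :=
  ∀ (k : ℕ) (G : Type) [CommGroup G] (D : CD k G), Sys D.P D.nm →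
    (∃ K : ℕ, ∀ p, (D.V p).card ≤ K) → BT D → ∀ j₀ : Fin k, Special D j₀ →
    (∀ J : Finset (Fin k), J = {j₀} ∨ TA D J ∨ TBt D J) → ∀ ε : ℝ, 0 < ε → ε < 1 →
    ∃ η C : ℝ, 0 < η ∧ 0 < C ∧ ∀ X : ℕ, 3 ≤ X → ∀ S : Finset (Finset D.P),
      (∀ c ∈ S, Nm D c ≤ X ∧ ∃ τ : D.P → D.O, BadT D c τ ∧
        ∃ p ∈ pf D c, D.cmp (τ p) ≠ j₀ ∧ Real.exp (Real.log X ^ ε) ≤ D.nm p) →
      (S.card : ℝ) ≤ C * X / Real.log X ^ η

/-- BLOCK CLt: the primes with option outside `j₀` are small, but not all of them very small. -/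
def StmtCountLt : Prop :=
  ∀ (k : ℕ) (G : Type) [CommGroup G] (D : CD k G), Sys D.P D.nm →
    (∃ K : ℕ, ∀ p, (D.V p).card ≤ K) → BT D → ∀ j₀ : Fin k, Special D j₀ → BTR D j₀ →
    (∀ J : Finset (Fin k), j₀ ∈ J → J ≠ {j₀} → TBt D J) →
    ∃ ε η C : ℝ, 0 < ε ∧ ε < 1 ∧ 0 < η ∧ 0 < C ∧ ∀ X B : ℕ, 3 ≤ X → 2 ≤ B →
      ∀ S : Finset (Finset D.P), (∀ c ∈ S, Nm D c ≤ X ∧ ∃ τ : D.P → D.O, BadT D c τ ∧
        (∃ p ∈ pf D c, D.cmp (τ p) ≠ j₀ ∧ B ≤ D.nm p) ∧
        ∀ p ∈ pf D c, D.cmp (τ p) ≠ j₀ → (D.nm p : ℝ) ≤ Real.exp (Real.log X ^ ε)) →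
      (S.card : ℝ) ≤ C * X * (1 / Real.log B ^ η + 1 / Real.log X ^ η)

end count

/-! ## The relations and the weights -/

/-- BLOCK G1t: the relations, with the data (`StmtG1M` with the prescriptions `ggM` and the given
options). -/
def StmtG1t : Prop :=
  StmtSel → ∀ (k L : Type) [Field k] [NumberField k] [Field L] [NumberField L] [Algebra k L]
    [IsGalois k L] (f : Polynomial k) (X : Ctx k L f), 4 ≤ f.natDegree →
    ∀ (hm : 0 < X.m) (hfin : {v : Pr k | ¬ Gd X.M v}.Finite) (ι : Type)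
      (Vι : Pr k → L → Finset ι) (SG : Pr k → ι → ℕ → L → L → ℤˣ),
    ∃ (H : Type) (_ : Finite H) (hh : H → L → L → L),
      ∀ (c : k) (S : Finset (Pr k)) (D : L → L → L) (t : Pr k → L) (i : Pr k → ι),
      DatM X c S D t (fun v => SG v (i v)) → (∀ v ∈ S, i v ∈ Vι v (t v)) →
      ∃ (h : H) (u : Pr k → ℤˣ),
        BadT (X.cdM hm hfin ι Vι (ggM X hm SG (hh h))) S (fun v => ⟨(t v, u v), i v⟩)

open scoped Classical in
/-- BLOCK G3t: the weights, with multiplicities, one rational root and an even number (`≥ 6`) of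
roots. -/
def StmtG3t : Prop :=
  StmtMert → StmtSplit → ∀ (k L : Type) [Field k] [NumberField k] [Field L]
    [NumberField L] [Algebra k L] [IsGalois k L] (f : Polynomial k) (a : k),
    Polynomial.eval a f = 0 → (∀ b : k, Polynomial.eval b f = 0 → b = a) → Even f.natDegree →
    6 ≤ f.natDegree → ∀ K : ℕ, ∃ ε : ℝ, 0 < ε ∧ ∀ (X : Ctx k L f) (hm : 0 < X.m)
      (hfin : {v : Pr k | ¬ Gd X.M v}.Finite) (ι : Type) (Vι : Pr k → L → Finset ι)
      (SG : Pr k → ι → ℕ → L → L → ℤˣ) (hh : L → L → L), (∀ v t, (Vι v t).card ≤ K) →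
      ∀ Q : Set (Pr k), (∀ v ∉ Q, Gd X.M v → ∀ t, (Vι v t).card ≤ 1) →
      ∀ B : ℕ → Finset (Pr k), (∀ x v, v ∈ B x ↔ nm v ≤ x) → ∀ δ C : ℝ, δ ≤ ε →
      (∀ x : ℕ, 2 ≤ x → |∑ v ∈ (B x).filter (· ∈ Q), (1 : ℝ) / nm v -
        δ * Real.log (Real.log x)| ≤ C) →
      Sys (Pr k) nm ∧
      (∃ K' : ℕ, ∀ p, ((X.cdM hm hfin ι Vι (ggM X hm SG hh)).V p).card ≤ K') ∧
      Special (X.cdM hm hfin ι Vι (ggM X hm SG hh)) (X.cmp hm (algebraMap k L a)) ∧
      (∀ J : Finset (Fin X.m), J = {X.cmp hm (algebraMap k L a)} ∨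
        TA (X.cdM hm hfin ι Vι (ggM X hm SG hh)) J ∨
        TBt (X.cdM hm hfin ι Vι (ggM X hm SG hh)) J) ∧
      ∀ J : Finset (Fin X.m), X.cmp hm (algebraMap k L a) ∈ J →
        J ≠ {X.cmp hm (algebraMap k L a)} → TBt (X.cdM hm hfin ι Vι (ggM X hm SG hh)) J

/-- BLOCK BTRM: the hypothesis `BTR`, with multiplicities. -/
def StmtBTRM : Prop :=
  StmtBTLR → StmtSel → ∀ (k L : Type) [Field k] [NumberField k] [Field L] [NumberField L]
    [Algebra k L] [IsGalois k L] (f : Polynomial k) (X : Ctx k L f) (a : k),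
    Polynomial.eval a f = 0 →
    ∀ (hm : 0 < X.m) (hfin : {v : Pr k | ¬ Gd X.M v}.Finite) (ι : Type)
      (Vι : Pr k → L → Finset ι) (g : Pr k → (Σ _ : L × ℤˣ, ι) → L → ℤˣ),
    BTR (X.cdM hm hfin ι Vι g) (X.cmp hm (algebraMap k L a))

/-! ## The data of an action on a level `N` -/

section defs

variable {k K0 E U : Type} [Field k] [NumberField k] [Field K0] [Field E] [Field U]
  [Algebra k K0] [Algebra k E] [Algebra E U] [Algebra K0 U] [Algebra k U]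

/-- At the prime `v` the action `Φ` of the twist by `c` fixes, on the level `N`, a place above the
place `b` of `L0` (for some valuation ring above `v`). -/
def OptAt (c : k) (Φ : (E ≃ₐ[k] E) →* (U ≃+* U)) (N : IntermediateField E U)
    (b : Place E (L0 E K0 (U := U))) (v : Pr k) : Prop :=
  ∃ (O : ValuationSubring E) (F : E ≃ₐ[k] E) (p f : ℕ), DecPt v O F p f ∧
    ∃ Q : Place E N, OverPl b Q ∧ Moves (Φ F) N Q Q ∧
      ∀ τ : E ≃ₐ[k] E, Inert O τ.toRingEquiv → (∀ d : E, d ^ 2 = algebraMap k E c → τ d = -d) →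
        Moves (Φ τ) N Q Q

/-- `IntDat`, with a level `N`. -/
structure IntDatN (h : K0) (m : ℕ) (Φ₁ : (E ≃ₐ[k] E) →* (U ≃+* U))
    (zz : Place E (L0 E K0 (U := U)) → Place E (L0 E K0 (U := U)) → U) (Bad : Set (Pr k)) (c : k)
    (Φ : (E ≃ₐ[k] E) →* (U ≃+* U)) (N : IntermediateField E U)
    (δ : Place E (L0 E K0 (U := U)) → Place E (L0 E K0 (U := U)) → E) : Prop where
  ne : ∀ b b', BPl h b → BPl h b' → b ≠ b' → δ b b' ≠ 0
  eqv : ∀ (g : E ≃ₐ[k] E) b b' a a', BPl h b → BPl h b' → b ≠ b' → Moves (Φ₁ g) _ b a →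
    Moves (Φ₁ g) _ b' a' → g (δ b b' ^ 2) = δ a a' ^ 2
  even : ∀ v ∉ Bad, ∀ (O : ValuationSubring E) (F : E ≃ₐ[k] E) (p f : ℕ), DecPt v O F p f →
    ∀ τ : E ≃ₐ[k] E, Inert O τ.toRingEquiv → (∀ d : E, d ^ 2 = algebraMap k E c → τ d = d) →
    ∀ b b', BPl h b → BPl h b' → b ≠ b' → τ (δ b b') = δ b b'
  odd : ∀ v ∉ Bad, IsOdd v c → ∀ (O : ValuationSubring E) (F : E ≃ₐ[k] E) (p f : ℕ),
    DecPt v O F p f → ∃ (b₀ : Place E (L0 E K0 (U := U))) (P : Place E (NN E K0 2 (U := U)))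
      (Q : Place E (NN E K0 (2 ^ m) (U := U))), BPl h b₀ ∧ OverPl b₀ P ∧ OverPl P Q ∧
      Moves (Φ₁ F) _ b₀ b₀ ∧ Moves (Φ₁ F) _ Q Q ∧
      (∀ τ : E ≃ₐ[k] E, Inert O τ.toRingEquiv → (∀ d : E, d ^ 2 = algebraMap k E c → τ d = -d) →
        ∀ b b', BPl h b → BPl h b' → b ≠ b' →
          ((b = b₀ ∨ b' = b₀) → τ (δ b b') = -δ b b') ∧
          (b ≠ b₀ → b' ≠ b₀ → τ (δ b b') = δ b b')) ∧
      (∀ b b', BPl h b → BPl h b' → b ≠ b' → b ≠ b₀ → b' ≠ b₀ → ∀ n : ℕ,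
        Moves (Φ₁ F ^ n) _ b b → Moves (Φ₁ F ^ n) _ b' b' →
        (F ^ n) (δ b b') = ((sgn (Φ₁ F ^ n) P (zz b b') : ℤ) : E) * δ b b') ∧
      -- the level `N`
      ∃ QN : Place E N, OverPl b₀ QN ∧ Moves (Φ F) N QN QN ∧
        ∀ τ : E ≃ₐ[k] E, Inert O τ.toRingEquiv → (∀ d : E, d ^ 2 = algebraMap k E c → τ d = -d) →
          Moves (Φ τ) N QN QN

/-- a level: a function field, stable under all automorphisms over `K0` which map `E` to `E` -/
structure Lvl (E K0 : Type) {U : Type} [Field E] [Field K0] [Field U] [Algebra E U] [Algebra K0 U]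
    (N : IntermediateField E U) : Prop where
  ff : IsFunctionField E N
  le : ∀ x : K0, algebraMap K0 U x ∈ N
  stab : ∀ T : U ≃+* U, (∀ x : K0, T (algebraMap K0 U x) = algebraMap K0 U x) →
    (∀ e : E, ∃ e' : E, T (algebraMap E U e) = algebraMap E U e') → ∀ z ∈ N, T z ∈ N

end defs

/-- BLOCK INT2: `StmtINT` with a level `N` which contains a given finite set `Z`. -/
def StmtINT2 : Prop :=
  ∀ (k K0 E U : Type) [Field k] [NumberField k] [Field K0] [Field E] [Field U] [Algebra k K0]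
    [Algebra k E] [Algebra E U] [Algebra K0 U] [Algebra k U] [IsScalarTower k E U]
    [IsScalarTower k K0 U] (h : K0) (r : U), Geo k K0 E U h r → ∀ (m : ℕ) (Z : Finset U), 1 ≤ m →
    ∀ zz : Place E (L0 E K0 (U := U)) → Place E (L0 E K0 (U := U)) → U,
    (∀ b b', BPl h b → BPl h b' → b ≠ b' → IsZ b b' (zz b b')) →
    ∃ N : IntermediateField E U, Lvl E K0 N ∧ MM E K0 r ≤ N ∧ (∀ z ∈ Z, z ∈ N) ∧
    ∀ (c₁ : k) (Φ₁ : (E ≃ₐ[k] E) →* (U ≃+* U)), c₁ ≠ 0 → Act (K0 := K0) r c₁ Φ₁ →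
    ∃ Bad : Set (Pr k), Bad.Finite ∧ ∀ (c : k) (Φ : (E ≃ₐ[k] E) →* (U ≃+* U)), c ≠ 0 →
      Act (K0 := K0) r c Φ →
      (∀ (g : E ≃ₐ[k] E) (w : U), UR E K0 (2 ^ m) w → Φ g w = Φ₁ g w) →
      ∃ δ : Place E (L0 E K0 (U := U)) → Place E (L0 E K0 (U := U)) → E,
        IntDatN h m Φ₁ zz Bad c Φ N δ

/-- BLOCK EV: the number of branch places is even. -/
def StmtEV : Prop :=
  ∀ (k K0 E U : Type) [Field k] [NumberField k] [Field K0] [Field E] [Field U] [Algebra k K0]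
    [Algebra k E] [Algebra E U] [Algebra K0 U] [Algebra k U] [IsScalarTower k E U]
    [IsScalarTower k K0 U] (h : K0) (r : U), Geo k K0 E U h r →
    Even (Nat.card {b : Place E (L0 E K0 (U := U)) // BPl h b})

/-! ## The main statements -/

/-- `b₀` is the only branch place which is fixed by all actions, and there are at least `5`. -/
structure OneRat {k K0 E U : Type} [Field k] [NumberField k] [Field K0] [Field E] [Field U]
    [Algebra k K0] [Algebra k E] [Algebra E U] [Algebra K0 U] [Algebra k U] (h : K0) (r : U)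
    (b₀ : Place E (L0 E K0 (U := U))) : Prop where
  br : BPl h b₀
  fix : ∀ (c : k) (Φ : (E ≃ₐ[k] E) →* (U ≃+* U)), c ≠ 0 → Act (K0 := K0) r c Φ →
    ∀ σ : E ≃ₐ[k] E, Moves (Φ σ) _ b₀ b₀
  only : ∀ (c : k) (Φ : (E ≃ₐ[k] E) →* (U ≃+* U)), c ≠ 0 → Act (K0 := K0) r c Φ →
    ∀ b : Place E (L0 E K0 (U := U)), BPl h b → b ≠ b₀ → ∃ σ : E ≃ₐ[k] E, ¬ Moves (Φ σ) _ b b
  five : 5 ≤ Nat.card {b : Place E (L0 E K0 (U := U)) // BPl h b}

/-- the property `P` holds for almost no class of `k* / k*²` -/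
def Rare {k : Type} [Field k] [NumberField k] (P : k → Prop) : Prop :=
  ∀ ε : ℝ, 0 < ε → ∀ᶠ X : ℕ in atTop, ∀ T : Finset k,
    (∀ c ∈ T, ∀ c' ∈ T, (∃ d : k, c = c' * d ^ 2) → c = c') →
    (∀ c ∈ T, c ≠ 0 ∧ Pool.Agent.HG.cond c ≤ X ∧ P c) → (T.card : ℝ) ≤ ε * X

/-- BLOCK AN (the analytic theorem): for every level `N` there are almost no `c` with a section
which has, at a prime of norm `> B` with `v(c)` odd, an option other than `b₀` on the level `N`. -/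
def StmtAN : Prop :=
  ∀ (k K0 E U : Type) [Field k] [NumberField k] [Field K0] [Field E] [Field U] [Algebra k K0]
    [Algebra k E] [Algebra E U] [Algebra K0 U] [Algebra k U] [IsScalarTower k E U]
    [IsScalarTower k K0 U] (h : K0) (r : U), Geo k K0 E U h r →
    ∀ b₀ : Place E (L0 E K0 (U := U)), OneRat (k := k) h r b₀ → ∀ Z : Finset U,
    ∃ (N : IntermediateField E U) (Bad : Set (Pr k)), Lvl E K0 N ∧ MM E K0 r ≤ N ∧
      (∀ z ∈ Z, z ∈ N) ∧ Bad.Finite ∧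
      ∀ ε : ℝ, 0 < ε → ∃ B : ℕ, ∀ᶠ X : ℕ in atTop, ∀ T : Finset k,
        (∀ c ∈ T, ∀ c' ∈ T, (∃ d : k, c = c' * d ^ 2) → c = c') →
        (∀ c ∈ T, c ≠ 0 ∧ Pool.Agent.HG.cond c ≤ X ∧
          ∃ Φ : (E ≃ₐ[k] E) →* (U ≃+* U), Act (K0 := K0) r c Φ ∧
            ∃ v : Pr k, v ∉ Bad ∧ B < nm v ∧ IsOdd v c ∧ ¬ OptAt c Φ N b₀ v) →
        (T.card : ℝ) ≤ ε * X

/-- BLOCK TRV: the valuation rings above a prime are conjugate. -/
def StmtTRV : Prop :=
  ∀ (k E : Type) [Field k] [NumberField k] [Field E] [IsAlgClosed E] [Algebra k E]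
    [Algebra.IsAlgebraic k E] (v : Pr k) (O O' : ValuationSubring E), OverV v O → OverV v O' →
    ∃ g : E ≃ₐ[k] E, ∀ z : E, g z ∈ O' ↔ z ∈ O

/-- BLOCK LVL (from `StmtAN`, `StmtLM`, `StmtK3`, `StmtAR`, `StmtHF`, `StmtW3`, `StmtCT`,
`StmtTRV`, `StmtFR`): for almost all `c` all elements of all actions fix a place above `b₀` of the
level `N'`, of exponent two over `L0`. -/
def StmtLVL : Prop :=
  ∀ (k K0 E U : Type) [Field k] [NumberField k] [Field K0] [Field E] [Field U] [Algebra k K0]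
    [Algebra k E] [Algebra E U] [Algebra K0 U] [Algebra k U] [IsScalarTower k E U]
    [IsScalarTower k K0 U] (h : K0) (r : U), Geo k K0 E U h r →
    ∀ b₀ : Place E (L0 E K0 (U := U)), OneRat (k := k) h r b₀ →
    ∀ N' : IntermediateField E U, Lvl E K0 N' → MM E K0 r ≤ N' →
    (∀ a : U ≃ₐ[E] U, (∀ x ∈ L0 E K0 (U := U), a x = x) → ∀ x ∈ N', a (a x) = x) →
    Rare (fun c : k => ∃ Φ : (E ≃ₐ[k] E) →* (U ≃+* U), Act (K0 := K0) r c Φ ∧
      ∃ σ : E ≃ₐ[k] E, ¬ ∃ Q : Place E N', OverPl b₀ Q ∧ Moves (Φ σ) N' Q Q)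

end

end Pool.Agent.TW
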