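import Pool.Agent.Helper97.TW.Agr
import Pool.Agent.Helper13.HG2.RatioP
import Pool.Agent.Helper13.HG2.Inf

/-!
# Project TW: the final theorem from the tower theorem
-/

set_option autoImplicit false
set_option linter.unusedSectionVars false

namespace Pool.Agent.TW

open VC Polynomial NumberField Filter Topology Pool.Agent.SC Pool.Agent.L Pool.Agent.M
  Pool.Agent.TOW Pool.Agent.Helper91.Sect

noncomputable section

/-- BLOCK GC: the curve `y² = f(x)`. -/
def StmtGC : Prop :=
  ∀ (k : Type) [Field k] [CharZero k] (f : k[X]), f.Separable → 5 ≤ f.natDegree →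
    GoodCurve k (algebraMap k[X] (FractionRing k[X]) f)

/-- some curve over `k` which maps onto `y² = c f(x)` has a section which does not agree with the
point at infinity modulo `m` -/
def Oth {k : Type} [Field k] (f : k[X]) (m : ℕ) (c : k) : Prop :=
  ∃ (K : Type) (_ : Field K) (_ : Algebra k K) (x y : K), Transcendental k x ∧
    y ^ 2 = algebraMap k K c * aeval x f ∧ ∃ s : GaloisSection k K, ¬ AgrInf s x y m

theorem aeval_X97 {k : Type} [Field k] (f : k[X]) :
    aeval (algebraMap k[X] (FractionRing k[X]) X) f = algebraMap k[X] (FractionRing k[X]) f := by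
  rw [aeval_algebraMap_apply, aeval_X_left_apply]

theorem adjoin_X97 {k : Type} [Field k] :
    IntermediateField.adjoin k {algebraMap k[X] (FractionRing k[X]) X} = ⊤ := by
  rw [eq_top_iff]
  intro z _
  obtain ⟨p, q, hq, rfl⟩ := IsFractionRing.div_surjective (A := k[X]) z
  have h1 : ∀ p : k[X], algebraMap k[X] (FractionRing k[X]) p ∈
      IntermediateField.adjoin k {algebraMap k[X] (FractionRing k[X]) X} := by
    intro p
    rw [← aeval_X97 p]
    exact IntermediateField.algebra_adjoin_le_adjoin k _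
      (Polynomial.aeval_mem_adjoin_singleton (R := k) _)
  exact div_mem (h1 p) (h1 q)

theorem trans_X97 {k : Type} [Field k] :
    Transcendental k (algebraMap k[X] (FractionRing k[X]) X) := by
  rw [transcendental_iff]
  intro p hp
  rw [aeval_X97] at hp
  exact (map_eq_zero_iff _ (IsFractionRing.injective k[X] (FractionRing k[X]))).1 hp

/-- **The transfer** for `y² = c f(x)`. -/
theorem trF (hGC : StmtGC) (k : Type) [Field k] [NumberField k]
    (f : k[X]) (hirr : Irreducible f) (hodd : Odd f.natDegree) (hdeg : 5 ≤ f.natDegree) :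
    ∃ (E U : Type) (_ : Field E) (_ : Field U) (_ : Algebra k E) (_ : Algebra E U)
      (_ : Algebra (FractionRing k[X]) U) (_ : Algebra k U) (_ : IsScalarTower k E U)
      (_ : IsScalarTower k (FractionRing k[X]) U) (r : U),
      Hyp E (algebraMap k[X] (FractionRing k[X]) X) f r ∧
      ∀ c : k, c ≠ 0 → ∀ (K : Type) [Field K] [Algebra k K] (x y : K), Transcendental k x →
        y ^ 2 = algebraMap k K c * aeval x f → ∀ s : GaloisSection k K,
        ∃ Φ : (E ≃ₐ[k] E) →* (U ≃+* U), Act (K0 := FractionRing k[X]) r c Φ ∧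
          (∀ m : ℕ, 0 < m → ∀ w ∈ Lev k x y m, w ∈ Kur k K) ∧
          ∀ m : ℕ, 0 < m → (∀ T : U ≃+* U, Au E (FractionRing k[X]) T →
              ∀ z ∈ NX E (FractionRing k[X]) r m, T z ∈ NX E (FractionRing k[X]) r m) →
            ∀ Q : Place E (NX E (FractionRing k[X]) r m),
            Infp (algebraMap k[X] (FractionRing k[X]) X) Q →
            (∀ g : E ≃ₐ[k] E, Moves (Φ g) _ Q Q) → AgrInf s x y m := by
  have hsep : f.Separable := hirr.separable
  obtain ⟨E, U, _, _, _, _, _, _, _, _, r, G, hsec⟩ :=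
    trX k (FractionRing k[X]) (algebraMap k[X] (FractionRing k[X]) f) (hGC k f hsep hdeg)
  have G' := G
  rw [← aeval_X97] at G'
  refine ⟨E, U, inferInstance, inferInstance, inferInstance, inferInstance, inferInstance,
    inferInstance, inferInstance, inferInstance, r, ⟨G', adjoin_X97, trans_X97, hirr, hodd, hdeg⟩,
    fun c hc0 K _ _ x y hx hy s => ?_⟩
  have hinj : Function.Injective ((aeval x : k[X] →ₐ[k] K) : k[X] →+* K) := by
    have := transcendental_iff_injective.1 hx
    exact this
  let φ : FractionRing k[X] →+* K := IsFractionRing.lift hinj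
  let _ : Algebra (FractionRing k[X]) K := φ.toAlgebra
  have hφ : ∀ p : k[X], algebraMap (FractionRing k[X]) K (algebraMap k[X] (FractionRing k[X]) p) =
      aeval x p := fun p => IsFractionRing.lift_algebraMap hinj p
  have hst' : IsScalarTower k (FractionRing k[X]) K := by
    refine IsScalarTower.of_algebraMap_eq fun a => ?_
    have e1 : algebraMap k (FractionRing k[X]) a = algebraMap k[X] (FractionRing k[X]) (C a) := rfl
    rw [e1, hφ, aeval_C]
  obtain ⟨Φ, hΦ, j, hj1, hj2, hj3, hj4, hj5⟩ := hsec c hc0 K y (by rw [hφ, hy]) s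
  have hx₀ : algebraMap (FractionRing k[X]) K (algebraMap k[X] (FractionRing k[X]) X) = x := by
    rw [hφ, aeval_X]
  refine ⟨Φ, hΦ, fun m hm w hw => ?_, fun m hm hst Q hQ hQΦ => ?_⟩
  · rw [← hx₀] at hw
    obtain ⟨u, hu, rfl⟩ := lev_sub97 (x₀ := algebraMap k[X] (FractionRing k[X]) X) G
      (by rw [hφ, hy]) hj1 hj2 hj3 hm hw
    exact hj4 u
  · have h2 := agr97 (x₀ := algebraMap k[X] (FractionRing k[X]) X) G (by rw [hφ, hy]) hj1 hj2 hj3
      hm hst hΦ (s := s) hj4 hj5 hQ hQΦ
    rwa [hx₀] at h2

theorem fin_of (hGC : StmtGC) (hPX1 : StmtPX1) (hT : StmtTower) (k : Type) [Field k] [NumberField k]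
    (f : k[X]) (hirr : Irreducible f) (hodd : Odd f.natDegree) (hdeg : 5 ≤ f.natDegree) (n : ℕ) :
    Rare (fun c : k => Oth f (2 ^ n) c) := by
  obtain ⟨E, U, _, _, _, _, _, _, _, _, r, H, hsec⟩ := trF hGC k f hirr hodd hdeg
  have h1 := hT k (FractionRing k[X]) E U (algebraMap k[X] (FractionRing k[X]) X) f r H n
  have hst := (hPX1 k (FractionRing k[X]) E U _ r H.geo n).1
  intro ε hε
  filter_upwards [h1 ε hε] with Y hY
  intro T hT hTc
  refine hY T hT fun c hc => ?_
  obtain ⟨hc0, hcY, K, _, _, x, y, hx, hy, s, hs⟩ := hTc c hc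
  obtain ⟨Φ, hΦ, _, h3⟩ := hsec c hc0 K x y hx hy s
  refine ⟨hc0, hcY, Φ, hΦ, ?_⟩
  rintro ⟨Q, hQ, hQΦ⟩
  exact hs (h3 (2 ^ n) (by positivity) hst Q hQ hQΦ)

/-- The curve `y² = c f(x)` has a section which agrees with the point at infinity modulo all
numbers. -/
theorem exists_agr97 (hGC : StmtGC) {k : Type} [Field k] [NumberField k] {f : k[X]}
    (hirr : Irreducible f) (hodd : Odd f.natDegree) (hdeg : 5 ≤ f.natDegree) {c : k}
    (hc : c ≠ 0) :
    ∃ (K : Type) (_ : Field K) (_ : Algebra k K) (x y : K), Transcendental k x ∧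
      y ^ 2 = algebraMap k K c * aeval x f ∧ IntermediateField.adjoin k {x, y} = ⊤ ∧
      ∃ s : GaloisSection k K, ∀ m : ℕ, 0 < m → AgrInf s x y m := by
  obtain ⟨x, y, hx, hy, hxV⟩ := Pool.Agent.HG.laurent_odd hodd hc
  let E := IntermediateField.adjoin k {x, y}
  have hxE : x ∈ E := IntermediateField.subset_adjoin _ _ (by simp)
  have hyE : y ∈ E := IntermediateField.subset_adjoin _ _ (by simp)
  have hcoe : ∀ p : k[X], ((aeval (⟨x, hxE⟩ : E) p : E) : LaurentSeries k) = aeval x p := fun p =>
    (aeval_algebraMap_apply (LaurentSeries k) (⟨x, hxE⟩ : E) p).symm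
  have hx' : Transcendental k (⟨x, hxE⟩ : E) := fun halg =>
    hx (halg.algebraMap (A := LaurentSeries k))
  have hxy' : (⟨y, hyE⟩ : E) ^ 2 = algebraMap k E c * aeval (⟨x, hxE⟩ : E) f := by
    apply Subtype.ext
    show y ^ 2 = algebraMap k (LaurentSeries k) c * ((aeval (⟨x, hxE⟩ : E) f : E) :
      LaurentSeries k)
    rw [hcoe, hy]
  refine ⟨E, inferInstance, inferInstance, ⟨x, hxE⟩, ⟨y, hyE⟩, hx', hxy', ?_, ?_⟩
  · have h2 : IntermediateField.lift (IntermediateField.adjoin k
        {(⟨x, hxE⟩ : E), (⟨y, hyE⟩ : E)}) = IntermediateField.lift (⊤ : IntermediateField k E) := by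
      rw [IntermediateField.lift_adjoin, IntermediateField.lift_top]
      show IntermediateField.adjoin k ((fun z : E => (z : LaurentSeries k)) ''
        {⟨x, hxE⟩, ⟨y, hyE⟩}) = E
      rw [Set.image_pair]
    exact IntermediateField.lift_injective E h2
  · obtain ⟨s, W, hW, hz, hσ⟩ := Pool.Agent.HG.section_of_place'
      ((Pool.Agent.Helper88.HG.pvr k).comap (algebraMap E (LaurentSeries k))) (by
        intro c
        rw [ValuationSubring.mem_comap, ← IsScalarTower.algebraMap_apply k E (LaurentSeries k)]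
        exact Pool.Agent.Helper88.HG.pvr_const k c) (by
        intro z hz
        rw [ValuationSubring.mem_comap] at hz
        obtain ⟨c, hc⟩ := Pool.Agent.Helper88.HG.pvr_res k _ hz
        refine ⟨c, ?_⟩
        rw [← ValuationSubring.mem_nonunits_iff, ValuationSubring.mem_nonunits_iff_or] at hc ⊢
        rcases hc with hc | hc
        · left
          apply Subtype.ext
          exact hc
        · right
          rw [ValuationSubring.mem_comap, map_inv₀]
          exact hc)
    refine ⟨s, fun m hm => ⟨W, ?_, ?_, ?_⟩⟩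
    · intro z hz
      have h1 : IsIntegral W z := by
        obtain ⟨p, hp, hpz⟩ := hz.isIntegral
        let i : k →+* W := (algebraMap k (AlgebraicClosure E)).codRestrict W.toSubring hW
        refine ⟨p.map i, hp.map i, ?_⟩
        rw [eval₂_map]
        exact hpz
      obtain ⟨z', hz'⟩ := IsIntegrallyClosed.isIntegral_iff.mp h1
      rw [← hz']
      exact z'.2
    · have h1 := hz (⟨x, hxE⟩ : E)⁻¹ (by
        rw [← ValuationSubring.mem_nonunits_iff, ValuationSubring.mem_nonunits_iff_or]
        right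
        rw [inv_inv, ValuationSubring.mem_comap]
        exact hxV)
      rw [← ValuationSubring.mem_nonunits_iff, ValuationSubring.mem_nonunits_iff_or] at h1
      rcases h1 with h1 | h1
      · rw [map_eq_zero, inv_eq_zero] at h1
        intro _
        have h2 : x = 0 := congrArg Subtype.val h1
        exact hxV (by rw [h2]; exact zero_mem _)
      · rwa [map_inv₀, inv_inv] at h1
    · intro w hw
      obtain ⟨_, _, _, _, _, _, _, _, _, _, _, _, hsec⟩ := trF hGC k f hirr hodd hdeg
      obtain ⟨_, _, h4, _⟩ := hsec c hc E ⟨x, hxE⟩ ⟨y, hyE⟩ hx' hxy' s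
      refine ⟨h4 m hm w hw, fun g => ?_⟩
      obtain ⟨τ, hτ1, hτ2⟩ := hσ g
      rw [hτ2, hτ1]

end

end Pool.Agent.TW
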