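import Pool.Agent.Helper97.TW.AllA
import Pool.Agent.Helper97.TW.Fin
import Pool.Agent.Helper62.TOW.KX1
import Pool.Agent.Helper28.TW.KX2
import Pool.Agent.Helper94.TW.KD
import Pool.Agent.Helper17.TW.INF
import Pool.Agent.Helper59.TW.PX1
import Pool.Agent.Helper79.TW.KG
import Pool.Agent.Helper90.TW.ORB
import Pool.Agent.Helper45.TW.SA
import Pool.Agent.Helper45.TW.STEP
import Pool.Agent.Helper45.TW.Tower
import Pool.Agent.Helper76.TW.GC

/-!
# Project TW: everything

**The final theorem.**  Let `k` be a number field and `f ∈ k[x]` irreducible of odd degree at least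
`5`.  For every `n`, for 100 percent of `c ∈ k*/k*²` every Galois section of `y² = c f(x)`, and of
every curve above it, agrees modulo `2ⁿ` with the section of the point at infinity.
-/

set_option autoImplicit false

namespace Pool.Agent.TW

open Polynomial Pool.Agent.TOW

theorem stmtPX1 : StmtPX1 := pX1 Pool.Agent.M.fT

theorem stmtKG : StmtKG := kG stmtPX1

theorem stmtORB : StmtORB := oRB kX1 kX2 kD stmtPX1 stmtKG iNF

theorem stmtSTEP : StmtSTEP :=
  sTEP stmtLVL stmtPX1 kX2 iNF stmtKG stmtORB (sA kX1 kX2 kD stmtPX1 iNF)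

theorem stmtTower : StmtTower := tower stmtPX1 iNF stmtSTEP

/-- **Project TW, the final theorem.** -/
theorem fin (k : Type) [Field k] [NumberField k] (f : k[X]) (hirr : Irreducible f)
    (hodd : Odd f.natDegree) (hdeg : 5 ≤ f.natDegree) (n : ℕ) :
    Rare (fun c : k => Oth f (2 ^ n) c) :=
  fin_of gC stmtPX1 stmtTower k f hirr hodd hdeg n

end Pool.Agent.TW
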