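import Pool.Agent.Helper97.TW.AN2
import Pool.Agent.Helper13.M.Fin4

/-!
# Project TW: the analytic theorem from the blocks
-/

set_option autoImplicit false
set_option linter.unusedSectionVars false

namespace Pool.Agent.TW

open VC IntermediateField NumberField IsDedekindDomain Filter Topology Pool.Agent.SC Pool.Agent.L
  Pool.Agent.M
open Pool.Agent.HG (Pr nm IsOdd Ctx Gd Ev Od DatM Special BTR BadT StmtSel StmtMert StmtSplit
  StmtBTL StmtThue StmtG4 StmtG2 StmtG2M StmtBTLR ggM)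
open Pool.Agent.Helper99.HG (CD pf Nm BT TA Sys)

open scoped Classical in
/-- **The analytic theorem.** -/
theorem aN (hCN : StmtCountNt) (hCL : StmtCountLt) (hG1 : StmtG1t) (hG3 : StmtG3t)
    (hBTRM : StmtBTRM) (hINT2 : StmtINT2) (hEV : StmtEV)
    (hNR : StmtNR) (hFB : StmtFB) (hFIN : StmtFIN) (hZ : StmtZ) (hLFT : StmtLFT) (hMU : StmtMU)
    (hQMD : StmtQMD) (hW3 : StmtW3) (hSel : StmtSel) (hMert : StmtMert)
    (hSplit : StmtSplit) (hBTL : StmtBTL) (hBTLR : StmtBTLR) (hThue : StmtThue) (hG4 : StmtG4)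
    (hG2 : StmtG2) (hG2M : StmtG2M) : StmtAN := by
  intro k K0 E U _ _ _ _ _ _ _ _ _ _ _ _ h r G b₀ hO Zf
  have hclE : IsAlgClosed E := G.clE
  have halg : Algebra.IsAlgebraic k E := G.algE
  have hcE : CharZero E := charZero_of_injective_algebraMap (algebraMap k E).injective
  obtain ⟨zz, hzz⟩ := exists_zz13 hZ G
  by_cases hex : ∃ (c₀ : k) (Φ₀ : (E ≃ₐ[k] E) →* (U ≃+* U)), c₀ ≠ 0 ∧ Act (K0 := K0) r c₀ Φ₀
  swap
  · obtain ⟨N, hN, hMN, hZN, _⟩ := hINT2 k K0 E U h r G 1 Zf le_rfl zz hzz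
    refine ⟨N, ∅, hN, hMN, hZN, Set.finite_empty, fun ε hε => ⟨0, ?_⟩⟩
    refine Eventually.of_forall fun Y T hT hTc => ?_
    have hT0 : T = ∅ := by
      rw [Finset.eq_empty_iff_forall_notMem]
      intro c hc
      obtain ⟨h1, _, Φ, hΦ, _⟩ := hTc c hc
      exact hex ⟨c, Φ, h1, hΦ⟩
    rw [hT0, Finset.card_empty, Nat.cast_zero]
    positivity
  obtain ⟨c₀, Φ₀, hc₀, hA₀⟩ := hex
  obtain ⟨f, θ, Gl'⟩ := exists_glT hNR hFB G hc₀ hA₀
  obtain ⟨a, haθ, ha, haonly⟩ := exists_rat97 G hc₀ hA₀ Gl' hO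
  have heven : Even f.natDegree := by rw [Gl'.deg]; exact hEV k K0 E U h r G
  have hdeg6 : 6 ≤ f.natDegree := by
    have h1 := hO.five
    rw [← Gl'.deg] at h1
    obtain ⟨j, hj⟩ := heven
    omega
  have hdeg : 4 ≤ f.natDegree := by omega
  have hNF : NumberField f.SplittingField := NumberField.of_module_finite k f.SplittingField
  have hGal : IsGalois k f.SplittingField := IsGalois.of_separable_splitting_field Gl'.sep
  have hsplit : (f.map (algebraMap k f.SplittingField)).Splits := Polynomial.SplittingField.splits f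
  let ι : f.SplittingField →ₐ[k] E := IsAlgClosed.lift
  have hne : Nonempty (Place E (NN E K0 2 (U := U))) := exists_pl13 (b := b₀)
  obtain ⟨θL, bt, hθL, hGl⟩ := exists_gl97 Gl' ι b₀
  have haL : θL b₀ = algebraMap k f.SplittingField a := by
    refine ι.injective (?_ : ι (θL b₀) = ι (algebraMap k f.SplittingField a))
    rw [hθL b₀ hO.br, haθ, AlgHom.commutes]
  -- the number of places over a place
  obtain ⟨⟨K, hK⟩, hMU2⟩ := hMU k K0 E U h r G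
  -- the density
  obtain ⟨ε₁, hε₁, hG3'⟩ := hG3 hMert hSplit k f.SplittingField f a ha haonly heven hdeg6 K
  obtain ⟨m, Lm, hm1, hLf, hLg, hdens⟩ := hQMD k K0 E U h r G ε₁ hε₁
  -- the finitely many actions
  obtain ⟨I, hI, c₁, Φ₁, hΦ₁, hcls⟩ := hFIN k K0 E U h r G m
  obtain ⟨N, hN, hMN, hZN, hint⟩ := hINT2 k K0 E U h r G m Zf hm1 zz hzz
  choose Bad hBad hint using fun i => hint (c₁ i) (Φ₁ i) (hΦ₁ i).1 (hΦ₁ i).2
  obtain ⟨Bs, hBs⟩ := Pool.Agent.HG.exists_B5 k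
  choose δ C₀ Bad' Q hδ hBad' hQ hsum using fun i => exists_Q13 hW3 G (hΦ₁ i).2 (m := m) Lm hLf hLg
    (hdens (c₁ i) (Φ₁ i) (hΦ₁ i).1 (hΦ₁ i).2) Bs hBs
  -- the excluded number
  obtain ⟨M₁, hM₁, hM₁v⟩ := exists_M13
    ((Set.finite_iUnion hBad).union (Set.finite_iUnion hBad'))
  obtain ⟨M₂, hM₂, hlft⟩ := hLFT k f.SplittingField E ι
  obtain ⟨X, hMX, hm, hfin⟩ := hG4 hThue k f.SplittingField f Gl'.sep hsplit hdeg (M₁ * M₂)
    (mul_ne_zero hM₁ hM₂)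
  have hM₁X : M₁ ∣ X.M := (Dvd.intro _ rfl).trans hMX
  have hM₂X : M₂ ∣ X.M := (Dvd.intro_left _ rfl).trans hMX
  have hXBad : ∀ i, ∀ v ∈ Bad i, ¬ Gd X.M v := fun i v hv =>
    hM₁v X.M hM₁X v (Or.inl (Set.mem_iUnion.2 ⟨i, hv⟩))
  have hXBad' : ∀ i, ∀ v ∈ Bad' i, ¬ Gd X.M v := fun i v hv =>
    hM₁v X.M hM₁X v (Or.inr (Set.mem_iUnion.2 ⟨i, hv⟩))
  -- the Frobenius elements
  have hlift : ∀ v : Pr k, ∃ (O : ValuationSubring E) (F : E ≃ₐ[k] E) (p n : ℕ), Gd X.M v →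
      DecPt v O F p n ∧ (∀ z : f.SplittingField, ι z ∈ O ↔
        (X.P v).valuation f.SplittingField z ≤ 1) ∧ ∀ z, F (ι z) = ι (X.F v z) := by
    intro v
    by_cases hv : Gd X.M v
    · obtain ⟨O, F, p, n, h1⟩ := hlft f X hM₂X v hv
      exact ⟨O, F, p, n, fun _ => h1⟩
    · exact ⟨⊤, 1, 0, 0, fun h1 => absurd h1 hv⟩
  choose O F p n hdec using hlift
  -- the options
  let VS : I → Pr k → f.SplittingField → Set (Place E (NN E K0 2 (U := U))) := fun i v t =>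
    {P | Gd X.M v ∧ OverPl (bt t) P ∧ ∃ Q : Place E (NN E K0 (2 ^ m) (U := U)), OverPl P Q ∧
      Moves (Φ₁ i (F v)) _ Q Q}
  have hVSsub : ∀ i v t, VS i v t ⊆ {P : Place E (NN E K0 2 (U := U)) | OverPl (bt t) P} :=
    fun i v t P hP => hP.2.1
  have hVSfin : ∀ i v t, (VS i v t).Finite := fun i v t => (hK (bt t)).1.subset (hVSsub i v t)
  let Vι : I → Pr k → f.SplittingField → Finset (Place E (NN E K0 2 (U := U))) := fun i v t =>
    (hVSfin i v t).toFinset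
  have hVιmem : ∀ i v t P, P ∈ Vι i v t ↔ P ∈ VS i v t := fun i v t P =>
    Set.Finite.mem_toFinset _
  have hVιK : ∀ i v t, (Vι i v t).card ≤ K := by
    intro i v t
    refine le_trans ?_ (hK (bt t)).2
    have h1 : (Vι i v t).card = (VS i v t).ncard := (Set.ncard_eq_toFinset_card _ _).symm
    rw [h1]
    have h2 := Set.ncard_le_ncard (hVSsub i v t) (hK (bt t)).1
    rwa [← Nat.card_coe_set_eq {P : Place E (NN E K0 2 (U := U)) | OverPl (bt t) P}] at h2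
  have hVι1 : ∀ i, ∀ v ∉ Q i, Gd X.M v → ∀ t, (Vι i v t).card ≤ 1 := by
    intro i v hvQ hgd t
    have hnQM : ¬ QM E K0 m (Φ₁ i (F v)) :=
      hQ i v (fun h1 => hXBad' i v h1 hgd) (O v) (F v) (p v) (n v) (hdec v hgd).1 hvQ
    rw [Finset.card_le_one]
    intro P hP P' hP'
    rw [hVιmem] at hP hP'
    obtain ⟨_, h1, R, h2, h3⟩ := hP
    obtain ⟨_, h1', R', h2', h3'⟩ := hP'
    exact hMU2 (c₁ i) (Φ₁ i) (hΦ₁ i).1 (hΦ₁ i).2 m (F v) hm1 hnQM (bt t) P P' R R' h1 h1' h2 h2'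
      h3 h3'
  -- the signs
  let SG : I → Pr k → Place E (NN E K0 2 (U := U)) → ℕ → f.SplittingField → f.SplittingField →
      ℤˣ := fun i v P N x x' => sgn (Φ₁ i (F v) ^ N) P (zz (bt x) (bt x'))
  -- the relations
  choose H hH hh hg using fun i => hG1 hSel k f.SplittingField f X hdeg hm hfin
    (Place E (NN E K0 2 (U := U))) (Vι i) (SG i)
  have hHI : Finite (Σ i, H i) := inferInstance
  have hHF : Fintype (Σ i, H i) := Fintype.ofFinite _
  obtain ⟨j₀, hj₀⟩ : ∃ j₀ : Fin X.m, j₀ = X.cmp hm (algebraMap k f.SplittingField a) := ⟨_, rfl⟩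
  let D : (Σ i, H i) → CD X.m ℤˣ := fun j =>
    X.cdM hm hfin (Place E (NN E K0 2 (U := U))) (Vι j.1) (ggM X hm (SG j.1) (hh j.1 j.2))
  have hG3D : ∀ j : Σ i, H i, Sys (D j).P (D j).nm ∧ (∃ K' : ℕ, ∀ p, ((D j).V p).card ≤ K') ∧
      Special (D j) j₀ ∧ (∀ J : Finset (Fin X.m), J = {j₀} ∨ TA (D j) J ∨ TBt (D j) J) ∧
      ∀ J : Finset (Fin X.m), j₀ ∈ J → J ≠ {j₀} → TBt (D j) J := by
    rintro ⟨i, j⟩
    rw [hj₀]
    exact hG3' X hm hfin (Place E (NN E K0 2 (U := U))) (Vι i) (SG i) (hh i j) (hVιK i)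
      (Q i) (hVι1 i) Bs hBs (δ i) (C₀ i) (hδ i) (hsum i)
  obtain ⟨Nc, hNc⟩ := Pool.Agent.HG.cls_count (k := k) hSel X.hM X.unif
    (fun p v hp hpM hpv z hz => X.isOdd_iff hp hpM hpv hz)
  refine ⟨N, {v : Pr k | ¬ Gd X.M v}, hN, hMN, hZN, hfin, fun ε hε => ?_⟩
  obtain ⟨B, hB2, hcnt⟩ := count97 hCN hCL D j₀ (fun j => (hG3D j).1) (fun j => (hG3D j).2.1)
    (fun j => hG2M hG2 hBTL hMert k f.SplittingField f X hm hfin _ (Vι j.1) _)
    (fun j => (hG3D j).2.2.1)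
    (fun j => by
      rw [hj₀]
      exact hBTRM hBTLR hSel k f.SplittingField f X a ha hm hfin _ (Vι j.1) _)
    (fun j => (hG3D j).2.2.2.1) (fun j => (hG3D j).2.2.2.2)
    (ε := ε / (Nc + 1)) (by positivity)
  refine ⟨B, ?_⟩
  filter_upwards [hcnt] with Y hY
  intro T hT hTc
  have hY0 : (0 : ℝ) ≤ Y := Nat.cast_nonneg Y
  have h1 := hNc (fun c : k => ∃ Φ : (E ≃ₐ[k] E) →* (U ≃+* U), Act (K0 := K0) r c Φ ∧
      ∃ v : Pr k, v ∉ {v : Pr k | ¬ Gd X.M v} ∧ B < nm v ∧ IsOdd v c ∧ ¬ OptAt c Φ N b₀ v) Y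
    (ε / (Nc + 1) * Y) (by
      intro SS hSS
      let S : ∀ j : Σ i, H i, Finset (Finset (D j).P) := fun j => SS.filter fun A =>
        ∃ τ : (D j).P → (D j).O, BadT (D j) A τ ∧
          ∃ p ∈ pf (D j) A, (D j).cmp (τ p) ≠ j₀ ∧ B ≤ (D j).nm p
      have hS : ∀ j, ∀ A ∈ S j, Nm (D j) A ≤ Y ∧ ∃ τ : (D j).P → (D j).O, BadT (D j) A τ ∧
          ∃ p ∈ pf (D j) A, (D j).cmp (τ p) ≠ j₀ ∧ B ≤ (D j).nm p := by
        intro j A hA
        obtain ⟨h2, h3⟩ := Finset.mem_filter.1 hA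
        exact ⟨(hSS A h2).1, h3⟩
      have hcov : SS ⊆ Finset.univ.biUnion fun j : Σ i, H i => (S j : Finset (Finset (Pr k))) := by
        intro A hA
        obtain ⟨_, c, hc, ⟨Φ, hΦ, v, hvg, hvB, hvodd, hvopt⟩, hAS⟩ := hSS A hA
        obtain ⟨i, hi⟩ := hcls c Φ hc hΦ
        obtain ⟨δ', hδ'⟩ := hint i c Φ hc hΦ hi
        obtain ⟨D', t, P, hD, hP, hopt⟩ := exists_datN (hGl X (c₁ i) (Φ₁ i) (hΦ₁ i).1 (hΦ₁ i).2)
          (hXBad i) hc hδ' (O := O) (F := F) (p' := p) (n := n) hdec hAS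
        obtain ⟨j, u, hj⟩ := hg i c A D' t P hD (by
          intro v hv
          rw [hVιmem]
          exact ⟨((hAS v).1 hv).1, hP v hv⟩)
        refine Finset.mem_biUnion.2 ⟨⟨i, j⟩, Finset.mem_univ _, Finset.mem_filter.2 ⟨hA, _, hj, ?_⟩⟩
        have hvA : v ∈ A := (hAS v).2 ⟨not_not.1 hvg, hvodd⟩
        have hpf : pf (D ⟨i, j⟩) A = A := by
          unfold Pool.Agent.Helper99.HG.pf
          refine Finset.filter_true_of_mem fun v hv => ?_
          intro h1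
          exact (hfin.mem_toFinset.1 h1) ((hAS v).1 hv).1
        refine ⟨v, ?_, ?_, hvB.le⟩
        · rw [hpf]
          exact hvA
        · intro h2
          have h3 : X.cmp hm (t v) = j₀ := h2
          rw [hj₀] at h3
          have h4 := (Pool.Agent.HG.cmp_root X hm ha (hD.t_mem v hvA)).1 h3
          apply hvopt
          have h5 := hopt v hvA
          rw [h4, ← haL] at h5
          rwa [(hGl X (c₁ i) (Φ₁ i) (hΦ₁ i).1 (hΦ₁ i).2).bt_θ b₀ hO.br] at h5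
      have h2 : (SS.card : ℝ) ≤ ∑ j : Σ i, H i, ((S j).card : ℝ) := by
        exact_mod_cast (Finset.card_le_card hcov).trans Finset.card_biUnion_le
      exact h2.trans (hY S hS)) T hT hTc
  refine h1.trans ?_
  have h3 : 0 ≤ ε / (Nc + 1) * Y := by positivity
  have h4 : (Nc : ℝ) * (ε / (Nc + 1) * Y) ≤ (Nc + 1) * (ε / (Nc + 1) * Y) :=
    mul_le_mul_of_nonneg_right (by linarith) h3
  refine h4.trans (le_of_eq ?_)
  field_simp

end Pool.Agent.TW
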