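import Pool.Agent.Helper13.M.All
import Pool.Agent.Helper97.TW.AN3
import Pool.Agent.Helper37.TW.CNt
import Pool.Agent.Helper57.TW.G1t
import Pool.Agent.Helper5.TW.G3t
import Pool.Agent.Helper90.TW.BTRM
import Pool.Agent.Helper70.TW.INT2
import Pool.Agent.Helper79.TW.EV
import Pool.Agent.Helper59.TW.TRV
import Pool.Agent.Helper17.TW.LVA
import Pool.Agent.Helper70.TW.LVF
import Pool.Agent.Helper29.TW.LVL
import Pool.Agent.Helper5.HG2.BTLR
import Pool.Agent.Helper99.TW.CountLt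

/-!
# Project TW: the arithmetic half
-/

set_option autoImplicit false

namespace Pool.Agent.TW

open Pool.Agent.M Pool.Agent.L

theorem stmtAN : StmtAN := by
  have hFT : StmtFT := fT
  have hLM : StmtLM := lm (Pool.Agent.L.stmtK2 Pool.Agent.L.stmtK1) Pool.Agent.L.stmtK3 k4M
    Pool.Agent.L.stmtAR
  have hFIN : StmtFIN := fin hLM hFT hf Pool.Agent.L.stmtFR Pool.Agent.L.stmtAR
  have hINT2 : StmtINT2 := int2 hLM hFT coc nR Pool.Agent.L.stmtAR
  have hQMD : StmtQMD := qMD (pI hFT) Pool.Agent.Helper22.M.w4 (qW hFT (w1 hFT)) w2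
  exact aN Pool.Agent.TW37.countNt Pool.Agent.Helper99.TW.countLt g1t g3t btrM hINT2 eV nR fb hFIN z lft (mu hFT) hQMD w3
    Pool.Agent.HG.sel Pool.Agent.Helper21.HG.mert Pool.Agent.Helper21.HG.split
    (Pool.Agent.HG.btl Pool.Agent.Helper21.HG.mert)
    (Pool.Agent.HG.btlr Pool.Agent.Helper21.HG.mert) Pool.Agent.Helper88.HG.thue
    Pool.Agent.Helper88.HG.g4 Pool.Agent.HG.g2 Pool.Agent.HG.g2M

/-- **Project TW, the arithmetic half.** -/
theorem stmtLVL : StmtLVL := by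
  have hLM : StmtLM := lm (Pool.Agent.L.stmtK2 Pool.Agent.L.stmtK1) Pool.Agent.L.stmtK3 k4M
    Pool.Agent.L.stmtAR
  exact lvl stmtAN hLM Pool.Agent.L.stmtK3 Pool.Agent.L.stmtAR
    (lva (lvf hf) w3 Pool.Agent.L.ct) trv Pool.Agent.L.stmtFR

end Pool.Agent.TW
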