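import Pool.Agent.Helper97.TW.All
import Pool.Agent.Helper45.TW.SOne
import Pool.Agent.Helper45.TW.SKX2
import Pool.Agent.Helper45.TW.SINF
import Pool.Agent.Helper45.TW.SOI3
import Pool.Agent.Helper45.TW.SFin
import Pool.Agent.Helper37.TW.Pts

/-!
# Project TW: separable `f` without root
-/

set_option autoImplicit false

namespace Pool.Agent.TW

open Polynomial

theorem finS (k : Type) [Field k] [NumberField k] (f : k[X]) (hsep : f.Separable)
    (hodd : Odd f.natDegree) (hdeg : 5 ≤ f.natDegree) (hroot : ∀ a : k, eval a f ≠ 0) :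
    Rare (fun c : k => Oth f 2 c) := by
  have h1 := Pool.Agent.TOWS.fin_one gC stmtPX1
    (Pool.Agent.TOWS.one stmtLVL stmtPX1 Pool.Agent.TOW.kD Pool.Agent.TOWS.kX2
      Pool.Agent.TOWS.iNF Pool.Agent.TOWS.oI3) k f hsep hodd hdeg hroot
  rwa [pow_one] at h1

end Pool.Agent.TW
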