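import Pool.Agent.Helper97.TW.Defs
import Pool.Agent.Helper13.M.Fin3

/-!
# Project TW, the analytic theorem: the data of the counting problem, with a level `N`
-/

set_option autoImplicit false
set_option linter.unusedSectionVars false

namespace Pool.Agent.TW

open VC IntermediateField NumberField IsDedekindDomain Pool.Agent.SC Pool.Agent.L Pool.Agent.M
open Pool.Agent.HG (Pr nm IsOdd Ctx Gd Ev Od DatM)

/-- **BLOCK DATM**, with a level `N`. -/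
theorem exists_datN {k K0 E U L : Type} [Field k] [NumberField k] [Field K0] [Field E] [Field U]
    [Algebra k K0] [Algebra k E] [Algebra E U] [Algebra K0 U] [Algebra k U] [IsAlgClosed E]
    [Algebra.IsAlgebraic k E] [Field L]
    [NumberField L] [Algebra k L] [IsGalois k L] {f : Polynomial k} {h : K0}
    {Φ₁ : (E ≃ₐ[k] E) →* (U ≃+* U)} {X : Ctx k L f} {ι : L →ₐ[k] E}
    {θ : Place E (L0 E K0 (U := U)) → L} {bt : L → Place E (L0 E K0 (U := U))}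
    (G : Gl h Φ₁ X ι θ bt) {m : ℕ}
    {zz : Place E (L0 E K0 (U := U)) → Place E (L0 E K0 (U := U)) → U} {Bad : Set (Pr k)}
    (hBad : ∀ v ∈ Bad, ¬ Gd X.M v) {c : k} (hc : c ≠ 0)
    {δ : Place E (L0 E K0 (U := U)) → Place E (L0 E K0 (U := U)) → E}
    {Φ : (E ≃ₐ[k] E) →* (U ≃+* U)} {N : IntermediateField E U}
    (hδ : IntDatN h m Φ₁ zz Bad c Φ N δ) {O : Pr k → ValuationSubring E} {F : Pr k → (E ≃ₐ[k] E)}
    {p' n : Pr k → ℕ} (hdec : ∀ v, Gd X.M v → DecPt v (O v) (F v) (p' v) (n v) ∧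
      (∀ z : L, ι z ∈ O v ↔ (X.P v).valuation L z ≤ 1) ∧ ∀ z : L, F v (ι z) = ι (X.F v z))
    {S : Finset (Pr k)} (hS : ∀ v, v ∈ S ↔ Gd X.M v ∧ IsOdd v c)
    [Nonempty (Place E (NN E K0 2 (U := U)))] :
    ∃ (D : L → L → L) (t : Pr k → L) (P : Pr k → Place E (NN E K0 2 (U := U))),
      DatM X c S D t (fun v N x x' => sgn (Φ₁ (F v) ^ N) (P v) (zz (bt x) (bt x'))) ∧
      (∀ v ∈ S, OverPl (bt (t v)) (P v) ∧ ∃ Q : Place E (NN E K0 (2 ^ m) (U := U)),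
        OverPl (P v) Q ∧ Moves (Φ₁ (F v)) _ Q Q) ∧ ∀ v ∈ S, OptAt c Φ N (bt (t v)) v := by
  classical
  -- the numbers `D`
  have hDex : ∀ x x' : L, ∃ y : L, x ∈ X.Ω → x' ∈ X.Ω → x ≠ x' →
      ι y = δ (bt x) (bt x') ^ 2 := by
    intro x x'
    by_cases hx : x ∈ X.Ω ∧ x' ∈ X.Ω ∧ x ≠ x'
    · obtain ⟨hx, hx', hne⟩ := hx
      have hb := G.bt_mem x hx
      have hb' := G.bt_mem x' hx'
      have hbb : bt x ≠ bt x' := fun h1 => hne (by rw [← G.θ_bt x hx, h1, G.θ_bt x' hx'])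
      obtain ⟨y, hy⟩ := mem_range13 ι (y := δ (bt x) (bt x') ^ 2) fun g hg =>
        hδ.eqv g _ _ _ _ hb hb' hbb ((G.act g _ _ hb hb).2 (hg _)) ((G.act g _ _ hb' hb').2 (hg _))
      exact ⟨y, fun _ _ _ => hy⟩
    · exact ⟨0, fun h1 h2 h3 => absurd ⟨h1, h2, h3⟩ hx⟩
  choose D hDy using hDex
  have hbne : ∀ {x x' : L}, x ∈ X.Ω → x' ∈ X.Ω → x ≠ x' → bt x ≠ bt x' :=
    fun hx hx' hne h1 => hne (by rw [← G.θ_bt _ hx, h1, G.θ_bt _ hx'])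
  have hδ0 : ∀ {x x' : L}, x ∈ X.Ω → x' ∈ X.Ω → x ≠ x' → δ (bt x) (bt x') ≠ 0 :=
    fun hx hx' hne => hδ.ne _ _ (G.bt_mem _ hx) (G.bt_mem _ hx') (hbne hx hx' hne)
  -- the local data
  have hloc : ∀ v : Pr k, ∃ (t : L) (P : Place E (NN E K0 2 (U := U))), v ∈ S →
      t ∈ X.Ω ∧ X.F v t = t ∧ OverPl (bt t) P ∧
      (∃ Q : Place E (NN E K0 (2 ^ m) (U := U)), OverPl P Q ∧ Moves (Φ₁ (F v)) _ Q Q) ∧
      (∀ τ : E ≃ₐ[k] E, Inert (O v) τ.toRingEquiv →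
        (∀ d : E, d ^ 2 = algebraMap k E c → τ d = -d) →
        ∀ b b', BPl h b → BPl h b' → b ≠ b' →
          ((b = bt t ∨ b' = bt t) → τ (δ b b') = -δ b b') ∧
          (b ≠ bt t → b' ≠ bt t → τ (δ b b') = δ b b')) ∧
      (∀ b b', BPl h b → BPl h b' → b ≠ b' → b ≠ bt t → b' ≠ bt t → ∀ N : ℕ,
        Moves (Φ₁ (F v) ^ N) _ b b → Moves (Φ₁ (F v) ^ N) _ b' b' →
        (F v ^ N) (δ b b') = ((sgn (Φ₁ (F v) ^ N) P (zz b b') : ℤ) : E) * δ b b') ∧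
      OptAt c Φ N (bt t) v := by
    intro v
    by_cases hv : v ∈ S
    · obtain ⟨hg, hodd⟩ := (hS v).1 hv
      obtain ⟨h1, h2, h3⟩ := hdec v hg
      obtain ⟨b₀, P, Q, hb, hP, hQ, hm, hmQ, hτ, hs, QN, hQN1, hQN2, hQN3⟩ :=
        hδ.odd v (fun h4 => hBad v h4 hg) hodd (O v) (F v) (p' v) (n v) h1
      refine ⟨θ b₀, P, fun _ => ?_⟩
      have e : bt (θ b₀) = b₀ := G.bt_θ b₀ hb
      rw [e]
      refine ⟨G.mem b₀ hb, ?_, hP, ⟨Q, hQ, hmQ⟩, hτ, hs,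
        ⟨O v, F v, p' v, n v, h1, QN, hQN1, hQN2, hQN3⟩⟩
      have h5 := (G.act (F v) b₀ b₀ hb hb).1 hm
      rw [h3] at h5
      exact ι.injective h5
    · exact ⟨0, Classical.arbitrary _, fun h1 => absurd h1 hv⟩
  choose t P hl using hloc
  -- an inertia element which moves `√p`
  have htau : ∀ {p : ℕ} {v : Pr k}, p.Prime → ¬ p ∣ X.M → (p : 𝓞 k) ∈ v.asIdeal →
      ∃ τ : E ≃ₐ[k] E, Inert (O v) τ.toRingEquiv ∧
        ∀ d : E, d ^ 2 = algebraMap k E (p : k) → τ d = -d := fun {p v} hp hpM hpv =>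
    (hdec v ⟨p, hp, hpM, hpv⟩).1.odd _ (isOdd_p13 X hp hpM hpv)
  refine ⟨D, t, P, ?_, fun v hv => ⟨(hl v hv).2.2.1, (hl v hv).2.2.2.1⟩,
    fun v hv => (hl v hv).2.2.2.2.2.2⟩
  refine ⟨hc, hS, ?_, ?_, fun v hv => (hl v hv).1, fun v hv => (hl v hv).2.1, ?_, ?_, ?_, ?_⟩
  · intro x hx x' hx' hne h0
    have h1 := hDy x x' hx hx' hne
    rw [h0, map_zero] at h1
    exact pow_ne_zero 2 (hδ0 hx hx' hne) h1.symm
  · intro σ x hx x' hx' hne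
    obtain ⟨g, hg⟩ := exists_lift13 ι σ
    have hx1 := X.conj_mem hx σ
    have hx1' := X.conj_mem hx' σ
    refine ι.injective (?_ : ι (σ (D x x')) = ι (D (σ x) (σ x')))
    rw [hDy _ _ hx1 hx1' (fun h' => hne (σ.injective h')), ← hg, hDy x x' hx hx' hne]
    refine hδ.eqv g _ _ _ _ (G.bt_mem x hx) (G.bt_mem x' hx') (hbne hx hx' hne) ?_ ?_
    · rw [G.act g _ _ (G.bt_mem x hx) (G.bt_mem _ hx1), G.θ_bt x hx, G.θ_bt _ hx1]
      exact hg x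
    · rw [G.act g _ _ (G.bt_mem x' hx') (G.bt_mem _ hx1'), G.θ_bt x' hx', G.θ_bt _ hx1']
      exact hg x'
  · intro p v hp hpM hpv hv x hx x' hx' hne
    have hg : Gd X.M v := ⟨p, hp, hpM, hpv⟩
    obtain ⟨h1, h2, h3⟩ := hdec v hg
    obtain ⟨τ, hτ, hτp⟩ := htau hp hpM hpv
    have hno : ¬ IsOdd v c := fun h4 => hv ((hS v).2 ⟨hg, h4⟩)
    refine (parity13 X ι hp hpM hpv h2 G.gen hτ hτp (hδ0 hx hx' hne) (hDy x x' hx hx' hne)).1 ?_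
    exact hδ.even v (fun h4 => hBad v h4 hg) (O v) (F v) (p' v) (n v) h1 τ hτ
      ((tau_c13 X ι hp hpM hpv h1 h2 hc hτ hτp).1 hno) _ _ (G.bt_mem x hx) (G.bt_mem x' hx')
      (hbne hx hx' hne)
  · intro p v hp hpM hpv hv x hx x' hx' hne hxt hxt'
    have hg : Gd X.M v := ⟨p, hp, hpM, hpv⟩
    obtain ⟨h1, h2, h3⟩ := hdec v hg
    obtain ⟨τ, hτ, hτp⟩ := htau hp hpM hpv
    refine (parity13 X ι hp hpM hpv h2 G.gen hτ hτp (hδ0 hx hx' hne) (hDy x x' hx hx' hne)).1 ?_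
    exact ((hl v hv).2.2.2.2.1 τ hτ
      ((tau_c13 X ι hp hpM hpv h1 h2 hc hτ hτp).2 ((hS v).1 hv).2) _ _ (G.bt_mem x hx)
      (G.bt_mem x' hx') (hbne hx hx' hne)).2 (hbne hx (hl v hv).1 hxt) (hbne hx' (hl v hv).1 hxt')
  · intro p v hp hpM hpv hv x hx x' hx' hne hxt
    have hg : Gd X.M v := ⟨p, hp, hpM, hpv⟩
    obtain ⟨h1, h2, h3⟩ := hdec v hg
    obtain ⟨τ, hτ, hτp⟩ := htau hp hpM hpv
    refine (parity13 X ι hp hpM hpv h2 G.gen hτ hτp (hδ0 hx hx' hne) (hDy x x' hx hx' hne)).2 ?_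
    refine ((hl v hv).2.2.2.2.1 τ hτ
      ((tau_c13 X ι hp hpM hpv h1 h2 hc hτ hτp).2 ((hS v).1 hv).2) _ _ (G.bt_mem x hx)
      (G.bt_mem x' hx') (hbne hx hx' hne)).1 ?_
    rcases hxt with rfl | rfl
    · exact Or.inl rfl
    · exact Or.inr rfl
  · intro p v hp hpM hpv hv x hx x' hx' hne hxt hxt' N hN hFx hFx' a ha
    have hg : Gd X.M v := ⟨p, hp, hpM, hpv⟩
    obtain ⟨h1, h2, h3⟩ := hdec v hg
    refine sign13 X ι hp hpM hpv h1 h2 hN (hDy x x' hx hx' hne) ha ?_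
    have hpow : ∀ (N : ℕ) (z : L), (F v ^ N) (ι z) = ι ((X.F v ^ N) z) := by
      intro N
      induction N with
      | zero => intro z; rfl
      | succ N ih =>
        intro z
        rw [pow_succ, AlgEquiv.mul_apply, h3, ih, pow_succ, AlgEquiv.mul_apply]
    refine (hl v hv).2.2.2.2.2.1 _ _ (G.bt_mem x hx) (G.bt_mem x' hx') (hbne hx hx' hne)
      (hbne hx (hl v hv).1 hxt) (hbne hx' (hl v hv).1 hxt') N ?_ ?_
    · rw [← map_pow, G.act _ _ _ (G.bt_mem x hx) (G.bt_mem x hx), G.θ_bt x hx, hpow, hFx]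
    · rw [← map_pow, G.act _ _ _ (G.bt_mem x' hx') (G.bt_mem x' hx'), G.θ_bt x' hx', hpow, hFx']

end Pool.Agent.TW
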