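import Pool.Agent.Helper97.TW.AN1
import Pool.Agent.Helper13.HG2.Final

/-!
# Project TW, the analytic theorem: the branch points as roots, the count
-/

set_option autoImplicit false
set_option linter.unusedSectionVars false

namespace Pool.Agent.TW

open VC IntermediateField NumberField IsDedekindDomain Filter Topology Pool.Agent.SC Pool.Agent.L
  Pool.Agent.M
open Pool.Agent.HG (Pr nm IsOdd Ctx Gd Ev Od DatM Special BTR BadT StmtSel)
open Pool.Agent.Helper99.HG (CD pf Nm BT TA Sys)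

/-! ## The branch points are the roots of a polynomial -/

/-- The roots of `f` in `E` are the branch points. -/
structure GlT {k K0 E U : Type} [Field k] [Field K0] [Field E] [Field U] [Algebra k K0]
    [Algebra k E] [Algebra E U] [Algebra K0 U] [Algebra k U] (h : K0) (r : U) (f : Polynomial k)
    (θ : Place E (L0 E K0 (U := U)) → E) : Prop where
  sep : f.Separable
  deg : f.natDegree = Nat.card {b : Place E (L0 E K0 (U := U)) // BPl h b}
  root : ∀ b, BPl h b → Polynomial.aeval (θ b) f = 0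
  ex : ∀ x : E, Polynomial.aeval x f = 0 → ∃ b, BPl h b ∧ θ b = x
  inj : ∀ b b', BPl h b → BPl h b' → θ b = θ b' → b = b'
  act : ∀ (c : k) (Φ : (E ≃ₐ[k] E) →* (U ≃+* U)), c ≠ 0 → Act (K0 := K0) r c Φ →
    ∀ (g : E ≃ₐ[k] E) b b', BPl h b → BPl h b' → (Moves (Φ g) _ b b' ↔ g (θ b) = θ b')

theorem exists_glT (hNR : StmtNR) (hFB : StmtFB) {k K0 E U : Type} [Field k] [NumberField k]
    [Field K0] [Field E] [Field U] [Algebra k K0]
    [Algebra k E] [Algebra E U] [Algebra K0 U] [Algebra k U] [IsScalarTower k E U]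
    [IsScalarTower k K0 U] {h : K0} {r : U} (G : Geo k K0 E U h r)
    {c₀ : k} {Φ₀ : (E ≃ₐ[k] E) →* (U ≃+* U)} (hc₀ : c₀ ≠ 0) (hA₀ : Act (K0 := K0) r c₀ Φ₀) :
    ∃ (f : Polynomial k) (θ : Place E (L0 E K0 (U := U)) → E), GlT h r f θ := by
  classical
  have hclE : IsAlgClosed E := G.clE
  have halg : Algebra.IsAlgebraic k E := G.algE
  obtain ⟨hfix, hfin, hperm⟩ := hNR k K0 E U h r G
  obtain ⟨hp1, hp2, hp3, hp4⟩ := hperm c₀ Φ₀ hc₀ hA₀
  let B := {b : Place E (L0 E K0 (U := U)) // BPl h b}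
  have hBf : Finite B := hfin.to_subtype
  choose act hact hact' using hp1
  have hL0 : ∀ (g : E ≃ₐ[k] E) (x : U), x ∈ L0 E K0 (U := U) → Φ₀ g x ∈ L0 E K0 (U := U) :=
    fun g x hx => phi_mem59 hA₀ g hx
  have hone : ∀ b, act 1 b = b := by
    intro b
    refine (hact' 1 b b ?_).symm
    intro x hx hx'
    have h1 : Φ₀ 1 x = x := by rw [map_one]; rfl
    simp only [h1]
  have hmul : ∀ g g' b, act (g * g') b = act g (act g' b) := by
    intro g g' b
    refine (hact' (g * g') b _ ?_).symm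
    intro x hx hx'
    have h1 : Φ₀ (g * g') x = Φ₀ g (Φ₀ g' x) := by rw [map_mul]; rfl
    have h2 := hact g' b x hx (hL0 g' x hx)
    have h3 := hact g (act g' b) (Φ₀ g' x) (hL0 g' x hx) (hL0 g _ (hL0 g' x hx))
    rw [h2, h3]
    simp only [h1]
  let _ : MulAction (E ≃ₐ[k] E) B :=
    { smul := fun g b => ⟨act g b.1, (hp2 g b.1 _ (hact g b.1)).1 b.2⟩
      one_smul := fun b => Subtype.ext (hone b.1)
      mul_smul := fun g g' b => Subtype.ext (hmul g g' b.1) }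
  obtain ⟨f, θ0, hsep, hdeg, hinj, hroot, hθ⟩ := hFB k E B fun b => by
    obtain ⟨L, hL, hLb⟩ := hp4 b.1
    exact ⟨L, hL, fun g hg => Subtype.ext (hact' g b.1 b.1 (hLb g hg)).symm⟩
  let θ : Place E (L0 E K0 (U := U)) → E := fun b => if hb : BPl h b then θ0 ⟨b, hb⟩ else 0
  have hθe : ∀ b (hb : BPl h b), θ b = θ0 ⟨b, hb⟩ := fun b hb => dif_pos hb
  refine ⟨f, θ, hsep, hdeg, ?_, ?_, ?_, ?_⟩
  · intro b hb
    rw [hθe b hb]
    exact (hroot _).2 ⟨_, rfl⟩
  · intro x hx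
    obtain ⟨b, hb⟩ := (hroot x).1 hx
    exact ⟨b.1, b.2, by rw [hθe b.1 b.2]; exact hb⟩
  · intro b b' hb hb' hbb
    rw [hθe b hb, hθe b' hb'] at hbb
    exact congrArg Subtype.val (hinj hbb)
  · intro c Φ hc hA g b b' hb hb'
    rw [← hp3 c Φ hc hA g b b', hθe b hb, hθe b' hb', hθ]
    constructor
    · intro h1
      have h2 := hact' g b b' h1
      congr 1
      exact Subtype.ext h2.symm
    · intro h1
      have h2 : act g b = b' := congrArg Subtype.val (hinj h1)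
      rw [← h2]
      exact hact g b

/-- the rational root -/
theorem exists_rat97 {k K0 E U : Type} [Field k] [NumberField k]
    [Field K0] [Field E] [Field U] [Algebra k K0]
    [Algebra k E] [Algebra E U] [Algebra K0 U] [Algebra k U] [IsScalarTower k E U]
    [IsScalarTower k K0 U] {h : K0} {r : U} (G : Geo k K0 E U h r)
    {c₀ : k} {Φ₀ : (E ≃ₐ[k] E) →* (U ≃+* U)} (hc₀ : c₀ ≠ 0) (hA₀ : Act (K0 := K0) r c₀ Φ₀)
    {f : Polynomial k} {θ : Place E (L0 E K0 (U := U)) → E} (Gl' : GlT h r f θ)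
    {b₀ : Place E (L0 E K0 (U := U))} (hO : OneRat (k := k) h r b₀) :
    ∃ a : k, θ b₀ = algebraMap k E a ∧ Polynomial.eval a f = 0 ∧
      ∀ b : k, Polynomial.eval b f = 0 → b = a := by
  have hclE : IsAlgClosed E := G.clE
  have halg : Algebra.IsAlgebraic k E := G.algE
  have hev : ∀ b : k, Polynomial.eval b f = 0 → Polynomial.aeval (algebraMap k E b) f = 0 := by
    intro b hb
    rw [Polynomial.aeval_algebraMap_apply]
    have : Polynomial.aeval b f = 0 := hb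
    rw [this, map_zero]
  have hgal : IsGalois k E := by
    have : IsAlgClosure k E := ⟨inferInstance, inferInstance⟩
    have := IsAlgClosure.normal k E
    exact ⟨⟩
  obtain ⟨a, ha⟩ : ∃ a : k, algebraMap k E a = θ b₀ := by
    have h1 := InfiniteGalois.fixedField_bot (k := k) (K := E)
    have h2 : θ b₀ ∈ (⊥ : IntermediateField k E) := by
      rw [← h1]
      intro ⟨g, _⟩
      exact (Gl'.act c₀ Φ₀ hc₀ hA₀ g b₀ b₀ hO.br hO.br).1 (hO.fix c₀ Φ₀ hc₀ hA₀ g)
    exact IntermediateField.mem_bot.1 h2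
  have ha0 : Polynomial.eval a f = 0 := by
    have h1 := Gl'.root b₀ hO.br
    rw [← ha, Polynomial.aeval_algebraMap_apply, map_eq_zero] at h1
    exact h1
  refine ⟨a, ha.symm, ha0, fun b hb => ?_⟩
  obtain ⟨b', hb', hbθ⟩ := Gl'.ex _ (hev b hb)
  have h1 : b' = b₀ := by
    by_contra hne
    obtain ⟨σ, hσ⟩ := hO.only c₀ Φ₀ hc₀ hA₀ b' hb' hne
    exact hσ ((Gl'.act c₀ Φ₀ hc₀ hA₀ σ b' b' hb' hb').2 (by rw [hbθ, AlgEquiv.commutes]))
  apply (algebraMap k E).injective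
  rw [← hbθ, h1, ha]

section glL

variable {k K0 E U : Type} [Field k] [NumberField k] [Field K0] [Field E] [IsAlgClosed E]
  [Field U] [Algebra k K0] [Algebra k E] [Algebra E U] [Algebra K0 U] [Algebra k U]

/-- the branch points and the roots in the splitting field -/
theorem exists_gl97 {h : K0} {r : U} {f : Polynomial k} {θ : Place E (L0 E K0 (U := U)) → E}
    (Gl' : GlT h r f θ) [NumberField f.SplittingField] [IsGalois k f.SplittingField]
    (ι : f.SplittingField →ₐ[k] E) (b₀ : Place E (L0 E K0 (U := U))) :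
    ∃ (θL : Place E (L0 E K0 (U := U)) → f.SplittingField)
      (bt : f.SplittingField → Place E (L0 E K0 (U := U))),
      (∀ b, BPl h b → ι (θL b) = θ b) ∧
      ∀ (X : Ctx k f.SplittingField f) (c : k) (Φ : (E ≃ₐ[k] E) →* (U ≃+* U)), c ≠ 0 →
        Act (K0 := K0) r c Φ → Gl h Φ X ι θL bt := by
  classical
  have hsplit : (f.map (algebraMap k f.SplittingField)).Splits := Polynomial.SplittingField.splits f
  have h1 : ∀ b : Place E (L0 E K0 (U := U)), ∃ x : f.SplittingField, BPl h b →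
      x ∈ f.rootSet f.SplittingField ∧ ι x = θ b := by
    intro b
    by_cases hb : BPl h b
    · have h1 : θ b ∈ f.rootSet E := by
        rw [Polynomial.mem_rootSet]
        exact ⟨Gl'.sep.ne_zero, Gl'.root b hb⟩
      rw [← Polynomial.Splits.image_rootSet hsplit ι] at h1
      obtain ⟨x, hx, hx'⟩ := h1
      exact ⟨x, fun _ => ⟨hx, hx'⟩⟩
    · exact ⟨0, fun h => absurd h hb⟩
  choose θL hθL using h1
  have h2 : ∀ x : f.SplittingField, ∃ b : Place E (L0 E K0 (U := U)),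
      x ∈ f.rootSet f.SplittingField → BPl h b ∧ θ b = ι x := by
    intro x
    by_cases hx : x ∈ f.rootSet f.SplittingField
    · obtain ⟨b, hb⟩ := Gl'.ex (ι x) (by
        rw [Polynomial.mem_rootSet] at hx
        rw [Polynomial.aeval_algHom_apply, hx.2, map_zero])
      exact ⟨b, fun _ => hb⟩
    · exact ⟨b₀, fun h => absurd h hx⟩
  choose bt hbt using h2
  refine ⟨θL, bt, fun b hb => (hθL b hb).2, fun X c Φ hc hA => ⟨?_, ?_, ?_, ?_, ?_, ?_⟩⟩
  · intro b hb
    rw [X.mem_Ω]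
    exact (hθL b hb).1
  · intro x hx
    rw [X.mem_Ω] at hx
    exact (hbt x hx).1
  · intro b hb
    have h3 := hθL b hb
    have h4 := hbt _ h3.1
    exact Gl'.inj _ _ h4.1 hb (h4.2.trans h3.2)
  · intro x hx
    rw [X.mem_Ω] at hx
    have h3 := hbt x hx
    have h4 := hθL _ h3.1
    exact ι.injective (h4.2.trans h3.2)
  · intro g b b' hb hb'
    rw [Gl'.act c Φ hc hA g b b' hb hb', (hθL b hb).2, (hθL b' hb').2]
  · intro σ hσ
    have h3 : Algebra.adjoin k (f.rootSet f.SplittingField) = ⊤ :=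
      Polynomial.SplittingField.adjoin_rootSet f
    have h4 : (σ : f.SplittingField →ₐ[k] f.SplittingField) = AlgHom.id k f.SplittingField := by
      refine AlgHom.ext_of_adjoin_eq_top h3 fun x hx => ?_
      exact hσ x ((X.mem_Ω x).2 hx)
    ext x
    exact DFunLike.congr_fun h4 x

end glL

/-! ## The count -/

theorem tendsto_log_rpow97 {η : ℝ} (hη : 0 < η) (a : ℝ) :
    Tendsto (fun X : ℕ => a / Real.log X ^ η) atTop (𝓝 0) := by
  have hlog : Tendsto (fun X : ℕ => Real.log X) atTop atTop :=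
    Real.tendsto_log_atTop.comp tendsto_natCast_atTop_atTop
  have h := ((tendsto_rpow_neg_atTop hη).comp hlog).const_mul a
  rw [mul_zero] at h
  refine h.congr' ?_
  filter_upwards [eventually_ge_atTop 1] with X hX
  have h0 : 0 ≤ Real.log X := Real.log_natCast_nonneg X
  change a * Real.log X ^ (-η) = _
  rw [Real.rpow_neg h0]
  rfl

open scoped Classical in
/-- few sets satisfy the conditions of one of finitely many counting problems with an option
outside `j₀` at a prime above `B` -/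
theorem count97 (hCN : StmtCountNt) (hCL : StmtCountLt) {kk : ℕ} {G : Type} [CommGroup G]
    {H : Type} [Finite H] (D : H → CD kk G) (j₀ : Fin kk)
    (hS : ∀ i, Sys (D i).P (D i).nm) (hV : ∀ i, ∃ K : ℕ, ∀ p, ((D i).V p).card ≤ K)
    (hBT : ∀ i, BT (D i)) (hSp : ∀ i, Special (D i) j₀) (hR : ∀ i, BTR (D i) j₀)
    (h1 : ∀ i, ∀ J : Finset (Fin kk), J = {j₀} ∨ TA (D i) J ∨ TBt (D i) J)
    (h2 : ∀ i, ∀ J : Finset (Fin kk), j₀ ∈ J → J ≠ {j₀} → TBt (D i) J)
    {ε : ℝ} (hε : 0 < ε) :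
    ∃ B : ℕ, 2 ≤ B ∧ ∀ᶠ Y : ℕ in atTop, ∀ S : ∀ i : H, Finset (Finset (D i).P),
      (∀ i, ∀ c ∈ S i, Nm (D i) c ≤ Y ∧ ∃ τ : (D i).P → (D i).O, BadT (D i) c τ ∧
        ∃ p ∈ pf (D i) c, (D i).cmp (τ p) ≠ j₀ ∧ B ≤ (D i).nm p) →
      ∀ [Fintype H], ∑ i, ((S i).card : ℝ) ≤ ε * Y := by
  have hfH : Fintype H := Fintype.ofFinite H
  have hN : ∀ i : H, ∃ ε η C η' C' : ℝ, 0 < ε ∧ ε < 1 ∧ 0 < η ∧ 0 < C ∧ 0 < η' ∧ 0 < C' ∧
      (∀ Y B : ℕ, 3 ≤ Y → 2 ≤ B → ∀ S : Finset (Finset (D i).P),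
        (∀ c ∈ S, Nm (D i) c ≤ Y ∧ ∃ τ : (D i).P → (D i).O,
          BadT (D i) c τ ∧
          (∃ p ∈ pf (D i) c, (D i).cmp (τ p) ≠ j₀ ∧ B ≤ (D i).nm p) ∧
          ∀ p ∈ pf (D i) c, (D i).cmp (τ p) ≠ j₀ →
            ((D i).nm p : ℝ) ≤ Real.exp (Real.log Y ^ ε)) →
        (S.card : ℝ) ≤ C * Y * (1 / Real.log B ^ η + 1 / Real.log Y ^ η)) ∧
      (∀ Y : ℕ, 3 ≤ Y → ∀ S : Finset (Finset (D i).P),
        (∀ c ∈ S, Nm (D i) c ≤ Y ∧ ∃ τ : (D i).P → (D i).O,
          BadT (D i) c τ ∧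
          ∃ p ∈ pf (D i) c, (D i).cmp (τ p) ≠ j₀ ∧
            Real.exp (Real.log Y ^ ε) ≤ (D i).nm p) →
        (S.card : ℝ) ≤ C' * Y / Real.log Y ^ η') := by
    intro i
    obtain ⟨ε₁, η, C, c1, c2, c3, c4, c5⟩ := hCL kk G (D i) (hS i) (hV i) (hBT i) _ (hSp i) (hR i)
      (h2 i)
    obtain ⟨η', C', d1, d2, d3⟩ := hCN kk G (D i) (hS i) (hV i) (hBT i) _ (hSp i) (h1 i) ε₁ c1 c2
    exact ⟨ε₁, η, C, η', C', c1, c2, c3, c4, d1, d2, c5, d3⟩
  choose ε₁ η C η' C' he0 he1 hη hC hη' hC' hCL' hCN' using hN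
  have hB1 : Tendsto (fun B : ℕ => ∑ i : H, C i / Real.log B ^ η i) atTop (𝓝 0) := by
    have := tendsto_finsetSum (Finset.univ : Finset H)
      (fun i _ => tendsto_log_rpow97 (hη i) (C i))
    simpa using this
  obtain ⟨B, hB2, hBε⟩ := ((eventually_ge_atTop 2).and
    (hB1.eventually_le_const (half_pos hε))).exists
  have hlim : Tendsto (fun Y : ℕ => (∑ i : H, (C i / Real.log Y ^ η i + C' i / Real.log Y ^ η' i)))
      atTop (𝓝 0) := by
    have h1 := tendsto_finsetSum (Finset.univ : Finset H)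
      (fun i _ => (tendsto_log_rpow97 (hη i) (C i)).add (tendsto_log_rpow97 (hη' i) (C' i)))
    simpa using h1
  refine ⟨B, hB2, ?_⟩
  filter_upwards [hlim.eventually_le_const (half_pos hε), eventually_ge_atTop 3] with Y hY hY3
  intro S hSc hfH'
  have hsub : hfH' = hfH := Subsingleton.elim _ _
  subst hsub
  have hY0 : (0 : ℝ) ≤ Y := Nat.cast_nonneg Y
  -- the two kinds
  let S1 : ∀ i : H, Finset (Finset (D i).P) := fun i => (S i).filter fun A =>
    ∃ τ : (D i).P → (D i).O, BadT (D i) A τ ∧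
      (∃ p ∈ pf (D i) A, (D i).cmp (τ p) ≠ j₀ ∧ B ≤ (D i).nm p) ∧
      ∀ p ∈ pf (D i) A, (D i).cmp (τ p) ≠ j₀ → ((D i).nm p : ℝ) ≤ Real.exp (Real.log Y ^ ε₁ i)
  let S2 : ∀ i : H, Finset (Finset (D i).P) := fun i => (S i).filter fun A =>
    ∃ τ : (D i).P → (D i).O, BadT (D i) A τ ∧
      ∃ p ∈ pf (D i) A, (D i).cmp (τ p) ≠ j₀ ∧ Real.exp (Real.log Y ^ ε₁ i) ≤ (D i).nm p
  have hcov : ∀ i, S i ⊆ S1 i ∪ S2 i := by
    intro i A hA
    obtain ⟨_, τ, hbt, p, hp, hpj, hpB⟩ := hSc i A hA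
    by_cases hbig : ∃ p ∈ pf (D i) A, (D i).cmp (τ p) ≠ j₀ ∧
        Real.exp (Real.log Y ^ ε₁ i) ≤ (D i).nm p
    · exact Finset.mem_union_right _ (Finset.mem_filter.2 ⟨hA, τ, hbt, hbig⟩)
    · push Not at hbig
      exact Finset.mem_union_left _ (Finset.mem_filter.2 ⟨hA, τ, hbt, ⟨p, hp, hpj, hpB⟩,
        fun q hq hqj => (hbig q hq hqj).le⟩)
  have hS1 : ∀ i : H, ((S1 i).card : ℝ) ≤
      C i * Y * (1 / Real.log B ^ η i + 1 / Real.log Y ^ η i) := by
    intro i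
    refine hCL' i Y B hY3 hB2 (S1 i) fun A hA => ?_
    obtain ⟨h1, h2⟩ := Finset.mem_filter.1 hA
    exact ⟨(hSc i A h1).1, h2⟩
  have hS2 : ∀ i : H, ((S2 i).card : ℝ) ≤ C' i * Y / Real.log Y ^ η' i := by
    intro i
    refine hCN' i Y hY3 (S2 i) fun A hA => ?_
    obtain ⟨h1, h2⟩ := Finset.mem_filter.1 hA
    exact ⟨(hSc i A h1).1, h2⟩
  calc ∑ i, ((S i).card : ℝ) ≤ ∑ i : H, (((S1 i).card : ℝ) + (S2 i).card) := by
        refine Finset.sum_le_sum fun i _ => ?_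
        exact_mod_cast (Finset.card_le_card (hcov i)).trans (Finset.card_union_le _ _)
    _ ≤ ∑ i : H, (C i * Y * (1 / Real.log B ^ η i + 1 / Real.log Y ^ η i) +
          C' i * Y / Real.log Y ^ η' i) :=
        Finset.sum_le_sum fun i _ => add_le_add (hS1 i) (hS2 i)
    _ = (∑ i : H, C i / Real.log B ^ η i) * Y +
        (∑ i : H, (C i / Real.log Y ^ η i + C' i / Real.log Y ^ η' i)) * Y := by
        rw [Finset.sum_mul, Finset.sum_mul, ← Finset.sum_add_distrib]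
        refine Finset.sum_congr rfl fun i _ => ?_
        ring
    _ ≤ (ε / 2) * Y + (ε / 2) * Y :=
        add_le_add (mul_le_mul_of_nonneg_right hBε hY0) (mul_le_mul_of_nonneg_right hY hY0)
    _ = ε * Y := by ring

end Pool.Agent.TW
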