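import Pool.Agent.Helper97.TW.TR
import Pool.Agent.Helper45.TW.Defs
import Pool.Agent.SC.PlaceExt

/-!
# Project TW: agreement of a section with the point at infinity, from the fixed place
-/

set_option autoImplicit false
set_option linter.unusedSectionVars false

namespace Pool.Agent.TW

open VC IntermediateField NumberField Pool.Agent.SC Pool.Agent.L Pool.Agent.M Pool.Agent.TOW
  Pool.Agent.Helper91.Sect

noncomputable section

/-- The field `kbar(x, y)`, in the algebraic closure of `K`. -/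
def Xbar (k : Type) {K : Type} [Field k] [Field K] [Algebra k K] (x y : K) :
    Subfield (AlgebraicClosure K) :=
  Subfield.closure ({z | IsAlgebraic k z} ∪
    {algebraMap K (AlgebraicClosure K) x, algebraMap K (AlgebraicClosure K) y})

/-- `w` is an `m`-th root of an element of `kbar(x, y)` whose divisor is divisible by `m`. -/
def IsRt (k : Type) {K : Type} [Field k] [Field K] [Algebra k K] (x y : K) (m : ℕ)
    (w : AlgebraicClosure K) : Prop :=
  ∃ u : Xbar k x y, (u : AlgebraicClosure K) = w ^ m ∧ ∀ P : ValuationSubring (Xbar k x y),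
    (∀ z : Xbar k x y, IsAlgebraic k (z : AlgebraicClosure K) → z ∈ P) →
    ∃ z : Xbar k x y, P.valuation u = P.valuation z ^ m

/-- The maximal abelian unramified extension of exponent `m` of `kbar(x, y)`. -/
def Lev (k : Type) {K : Type} [Field k] [Field K] [Algebra k K] (x y : K) (m : ℕ) :
    Subfield (AlgebraicClosure K) :=
  Subfield.closure ({z | IsAlgebraic k z} ∪
    {algebraMap K (AlgebraicClosure K) x, algebraMap K (AlgebraicClosure K) y} ∪
    {w | IsRt k x y m w})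

/-- The section `s` of `K ∋ x, y` fixes a place above infinity of the maximal abelian unramified
extension of exponent `m` of `kbar(x, y)`. -/
def AgrInf {k K : Type} [Field k] [Field K] [Algebra k K] (s : GaloisSection k K) (x y : K)
    (m : ℕ) : Prop :=
  ∃ Q : ValuationSubring (AlgebraicClosure K), (∀ z, IsAlgebraic k z → z ∈ Q) ∧
    algebraMap K (AlgebraicClosure K) x ∉ Q ∧
    ∀ w ∈ Lev k x y m, ∃ hw : w ∈ Kur k K, ∀ g : Gk k K,
      (w ∈ Q ↔ (s.toHom g ⟨w, hw⟩ : AlgebraicClosure K) ∈ Q)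

section main

variable {k K0 E U : Type} [Field k] [NumberField k] [Field K0] [Field E] [Field U]
  [Algebra k K0] [Algebra k E] [Algebra E U] [Algebra K0 U] [Algebra k U] [IsScalarTower k E U]
  [IsScalarTower k K0 U] {x₀ h : K0} {r : U} (G : Geo k K0 E U h r)
  {K : Type} [Field K] [Algebra k K] [Algebra K0 K] [IsScalarTower k K0 K] {y : K}
  {c : k} (hc : c ≠ 0) (hy : y ^ 2 = algebraMap k K c * algebraMap K0 K h)
  {j : U →+* AlgebraicClosure K}
  (hj1 : ∀ x : K0, j (algebraMap K0 U x) = algebraMap K (AlgebraicClosure K) (algebraMap K0 K x))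
  (hj2 : ∀ z : E, IsAlgebraic k (j (algebraMap E U z)))
  (hj3 : ∀ z : AlgebraicClosure K, IsAlgebraic k z → ∃ z' : E, j (algebraMap E U z') = z)

include G hy hj1 in
/-- `y` is `r` times a constant -/
theorem j_r97 : ∃ d : E, j (algebraMap E U d * r) = algebraMap K (AlgebraicClosure K) y := by
  have hclE : IsAlgClosed E := G.clE
  obtain ⟨d, hd⟩ := IsAlgClosed.exists_pow_nat_eq (algebraMap k E c) (n := 2) two_pos
  have h1 : (j (algebraMap E U d * r)) ^ 2 = (algebraMap K (AlgebraicClosure K) y) ^ 2 := by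
    rw [← map_pow, mul_pow, ← map_pow, hd, G.rsq, ← map_pow, hy, map_mul, map_mul, hj1]
    congr 1
    rw [← IsScalarTower.algebraMap_apply k E U, IsScalarTower.algebraMap_apply k K0 U, hj1,
      ← IsScalarTower.algebraMap_apply k K0 K]
  rcases sq_eq_sq_iff_eq_or_eq_neg.1 h1 with h2 | h2
  · exact ⟨d, h2⟩
  · refine ⟨-d, ?_⟩
    rw [map_neg, neg_mul, map_neg, h2, neg_neg]

include G hy hj1 hj3 in
/-- `kbar(x, y)` is in the image of `M` -/
theorem xbar_sub97 (z : AlgebraicClosure K) (hz : z ∈ Xbar k (algebraMap K0 K x₀) y) :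
    ∃ u ∈ MM E K0 r, j u = z := by
  have h1 : Xbar k (algebraMap K0 K x₀) y ≤ (MM E K0 r).toSubfield.map j := by
    rw [Xbar, Subfield.closure_le]
    rintro z (hz | hz | hz)
    · obtain ⟨z', rfl⟩ := hj3 z hz
      exact ⟨_, (MM E K0 r).algebraMap_mem z', rfl⟩
    · refine ⟨algebraMap K0 U x₀, ?_, ?_⟩
      · exact IntermediateField.subset_adjoin _ _ (Or.inl ⟨x₀, rfl⟩)
      · rw [hz]; exact hj1 x₀
    · obtain ⟨d, hd⟩ := j_r97 G hy hj1
      refine ⟨algebraMap E U d * r, ?_, ?_⟩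
      · exact mul_mem ((MM E K0 r).algebraMap_mem d)
          (IntermediateField.subset_adjoin _ _ (Or.inr rfl))
      · rw [hz]; exact hd
  obtain ⟨u, hu, hu'⟩ := h1 hz
  exact ⟨u, hu, hu'⟩

include hj2 hj3 in
/-- valuation rings of `U` extend -/
theorem exists_ext97 (W : Place E U) : ∃ V : ValuationSubring (AlgebraicClosure K),
    (∀ u : U, j u ∈ V ↔ u ∈ W.ring) ∧ ∀ z : AlgebraicClosure K, IsAlgebraic k z → z ∈ V := by
  let _ : Algebra U (AlgebraicClosure K) := j.toAlgebra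
  let _ : Algebra E (AlgebraicClosure K) := (j.comp (algebraMap E U)).toAlgebra
  have hst : IsScalarTower E U (AlgebraicClosure K) := IsScalarTower.of_algebraMap_eq fun _ => rfl
  obtain ⟨V, hV⟩ := _root_.SC.exists_place_over (K := E) (M := U) (N := AlgebraicClosure K) W
  refine ⟨V.ring, hV, fun z hz => ?_⟩
  obtain ⟨z', rfl⟩ := hj3 z hz
  exact V.algebraMap_mem z'

include G hy hj1 hj2 hj3 in
/-- the roots are in the image of `NX` -/
theorem rt_sub97 {m : ℕ} (hm : 0 < m) {w : AlgebraicClosure K}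
    (hw : IsRt k (algebraMap K0 K x₀) y m w) : ∃ u ∈ NX E K0 r m, j u = w := by
  obtain ⟨u, hu, hP⟩ := hw
  obtain ⟨u0, hu0, hju⟩ := xbar_sub97 (x₀ := x₀) G hy hj1 hj3 u u.2
  by_cases hw0 : w = 0
  · exact ⟨0, zero_mem _, by rw [map_zero, hw0]⟩
  have hu00 : u0 ≠ 0 := by
    rintro rfl
    rw [map_zero] at hju
    rw [← hju] at hu
    exact pow_ne_zero m hw0 hu.symm
  obtain ⟨w0, hw0'⟩ := G.cover.root u0 m hm (by
    intro W hW
    by_cases hWt : W = ⊤
    · refine ⟨1, ?_⟩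
      rw [one_pow, map_one]
      refine le_antisymm ?_ ?_
      · rw [ValuationSubring.valuation_le_one_iff, hWt]
        trivial
      · have h1 : W.valuation u0⁻¹ ≤ 1 := by
          rw [ValuationSubring.valuation_le_one_iff, hWt]
          trivial
        rw [map_inv₀] at h1
        exact (inv_le_one₀ (zero_lt_iff.2 ((Valuation.ne_zero_iff _).2 hu00))).1 h1
    obtain ⟨V, hV1, hV2⟩ := exists_ext97 (k := k) hj2 hj3 (⟨W, hW, hWt⟩ : Place E U)
    obtain ⟨z, hz⟩ := hP (V.comap (Xbar k (algebraMap K0 K x₀) y).subtype) fun z hz => hV2 _ hz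
    obtain ⟨z0, hz0, hjz⟩ := xbar_sub97 (x₀ := x₀) G hy hj1 hj3 z z.2
    refine ⟨z0, ?_⟩
    have hu1 : u ≠ 0 := by
      rintro rfl
      exact pow_ne_zero m hw0 hu.symm
    have hz1 : z ≠ 0 := by
      rintro rfl
      rw [map_zero, zero_pow hm.ne'] at hz
      exact hu1 ((map_eq_zero _).1 hz)
    have hz00 : z0 ≠ 0 := by
      rintro rfl
      rw [map_zero] at hjz
      exact hz1 (Subtype.ext hjz.symm)
    -- quotients are units
    have key : ∀ a b : Xbar k (algebraMap K0 K x₀) y, ∀ a0 b0 : U, j a0 = a → j b0 = b → b ≠ 0 →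
        b0 ≠ 0 →
        (V.comap (Xbar k (algebraMap K0 K x₀) y).subtype).valuation a ≤
          (V.comap (Xbar k (algebraMap K0 K x₀) y).subtype).valuation b →
        W.valuation a0 ≤ W.valuation b0 := by
      intro a b a0 b0 ha hb hb0 hb00 hab
      have h1 : a / b ∈ V.comap (Xbar k (algebraMap K0 K x₀) y).subtype := by
        rw [← ValuationSubring.valuation_le_one_iff, map_div₀]
        exact div_le_one_of_le₀ hab zero_le
      rw [ValuationSubring.mem_comap] at h1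
      have h2 : (Xbar k (algebraMap K0 K x₀) y).subtype (a / b) = j (a0 / b0) := by
        rw [map_div₀, map_div₀, ha, hb]
        rfl
      rw [h2, hV1] at h1
      change a0 / b0 ∈ W at h1
      rw [← ValuationSubring.valuation_le_one_iff, map_div₀,
        div_le_one₀ (zero_lt_iff.2 ((Valuation.ne_zero_iff _).2 hb00))] at h1
      exact h1
    have hjzm : j (z0 ^ m) = ((z ^ m : Xbar k (algebraMap K0 K x₀) y) : AlgebraicClosure K) := by
      rw [map_pow, hjz]
      rfl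
    refine le_antisymm ?_ ?_
    · exact key u (z ^ m) u0 (z0 ^ m) hju hjzm (pow_ne_zero m hz1) (pow_ne_zero m hz00)
        (by rw [map_pow]; exact hz.le)
    · exact key (z ^ m) u (z0 ^ m) u0 hjzm hju hu1 hu00 (by rw [map_pow]; exact hz.ge))
  -- the quotient is a root of unity
  have hw00 : w0 ≠ 0 := by
    rintro rfl
    rw [zero_pow hm.ne'] at hw0'
    exact hu00 hw0'.symm
  have hj0 : j w0 ≠ 0 := (map_ne_zero j).2 hw00
  have h1 : (w / j w0) ^ m = 1 := by
    rw [div_pow, ← map_pow, hw0', hju, hu]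
    exact div_self (pow_ne_zero m hw0)
  have h2 : IsAlgebraic k (w / j w0) := by
    refine IsAlgebraic.of_pow hm ?_
    rw [h1]
    exact isAlgebraic_one
  obtain ⟨ζ, hζ⟩ := hj3 _ h2
  refine ⟨algebraMap E U ζ * w0, ?_, ?_⟩
  · refine mul_mem ((NX E K0 r m).algebraMap_mem ζ) ?_
    refine IntermediateField.subset_adjoin _ _ (Or.inr ⟨hw00, ?_⟩)
    rw [hw0']
    exact hu0
  · rw [map_mul, hζ, div_mul_cancel₀ _ hj0]

include G hy hj1 hj2 hj3 in
/-- the level is in the image of `NX` -/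
theorem lev_sub97 {m : ℕ} (hm : 0 < m) {z : AlgebraicClosure K}
    (hz : z ∈ Lev k (algebraMap K0 K x₀) y m) : ∃ u ∈ NX E K0 r m, j u = z := by
  have hMN : MM E K0 r ≤ NX E K0 r m := fun u hu =>
    IntermediateField.subset_adjoin _ _ (Or.inl hu)
  have h1 : Lev k (algebraMap K0 K x₀) y m ≤ (NX E K0 r m).toSubfield.map j := by
    rw [Lev, Subfield.closure_le]
    rintro z (hz | hz)
    · obtain ⟨u, hu, hu'⟩ := xbar_sub97 (x₀ := x₀) G hy hj1 hj3 z (Subfield.subset_closure hz)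
      exact ⟨u, hMN hu, hu'⟩
    · obtain ⟨u, hu, hu'⟩ := rt_sub97 (x₀ := x₀) G hy hj1 hj2 hj3 hm hz
      exact ⟨u, hu, hu'⟩
  obtain ⟨u, hu, hu'⟩ := h1 hz
  exact ⟨u, hu, hu'⟩

include G hy hj1 hj2 hj3 in
/-- **Agreement** from a fixed place. -/
theorem agr97 {m : ℕ} (hm : 0 < m)
    (hst : ∀ T : U ≃+* U, Au E K0 T → ∀ z ∈ NX E K0 r m, T z ∈ NX E K0 r m)
    {Φ : (E ≃ₐ[k] E) →* (U ≃+* U)} (hΦ : Act (K0 := K0) r c Φ) {s : GaloisSection k K}
    (hj4 : ∀ u, j u ∈ Kur k K)
    (hj5 : ∀ g : Gk k K, ∃ σ : E ≃ₐ[k] E, ∀ (u : U) (hu : j u ∈ Kur k K),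
      (s.toHom g ⟨j u, hu⟩ : AlgebraicClosure K) = j (Φ σ u))
    {Q : Place E (NX E K0 r m)} (hQ : Infp x₀ Q) (hQΦ : ∀ g : E ≃ₐ[k] E, Moves (Φ g) _ Q Q) :
    AgrInf s (algebraMap K0 K x₀) y m := by
  obtain ⟨W, hW⟩ := _root_.SC.exists_place_over (K := E) (M := NX E K0 r m) (N := U) Q
  obtain ⟨V, hV1, hV2⟩ := exists_ext97 (k := k) hj2 hj3 W
  refine ⟨V, hV2, ?_, ?_⟩
  · rw [← hj1, hV1]
    have hx : algebraMap K0 U x₀ ∈ NX E K0 r m := IntermediateField.subset_adjoin _ _
      (Or.inl (IntermediateField.subset_adjoin _ _ (Or.inl ⟨x₀, rfl⟩)))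
    intro h1
    exact hQ hx ((hW ⟨_, hx⟩).1 h1)
  · intro w hw
    obtain ⟨u, hu, rfl⟩ := lev_sub97 (x₀ := x₀) G hy hj1 hj2 hj3 hm hw
    refine ⟨hj4 u, fun g => ?_⟩
    obtain ⟨σ, hσ⟩ := hj5 g
    have hT : Φ σ u ∈ NX E K0 r m := hst (Φ σ) ⟨hΦ.fixK σ, fun e => ⟨σ e, hΦ.const σ e⟩⟩ u hu
    rw [hσ, hV1, hV1]
    have h1 := hQΦ σ u hu hT
    rw [← hW, ← hW] at h1
    exact h1

end main

end

end Pool.Agent.TW
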