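import Pool.Agent.Helper13.TW.Push
import Pool.Agent.Helper37.L.TR
import Pool.Agent.Helper97.TW.Defs

/-!
# Project TW: the transfer of sections, with the compatibility
-/

universe u

set_option autoImplicit false
set_option linter.unusedSectionVars false

namespace Pool.Agent.TW

open VC IntermediateField NumberField Pool.Agent.SC Pool.Agent.L Pool.Agent.L.TR
  Pool.Agent.Helper91.Sect

noncomputable section

/-- **The image of a Galois section**, with the compatibility. -/
theorem pushX {k K₁ K : Type u} [Field k] [Field K₁] [Field K] [Algebra k K₁] [Algebra k K]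
    [Algebra K₁ K] [IsScalarTower k K₁ K] (s : GaloisSection k K) :
    ∃ (s₁ : GaloisSection k K₁) (φ : AlgebraicClosure K₁ →ₐ[K₁] AlgebraicClosure K),
      (∀ z ∈ Kur k K₁, φ z ∈ Kur k K) ∧
      (∀ z : AlgebraicClosure K, IsAlgebraic k z → ∃ z₁ : AlgebraicClosure K₁,
        IsAlgebraic k z₁ ∧ φ z₁ = z) ∧
      (∀ z₁ : AlgebraicClosure K₁, IsAlgebraic k z₁ → IsAlgebraic k (φ z₁)) ∧
      ∀ g : Gk k K, ∃ g₁ : Gk k K₁, ∀ (z : Kur k K₁) (hz : φ z ∈ Kur k K),
        (s.toHom g ⟨φ z, hz⟩ : AlgebraicClosure K) = φ (s₁.toHom g₁ z) := by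
  classical
  let Ω₁ := AlgebraicClosure K₁
  let Ω := AlgebraicClosure K
  let φ : Ω₁ →ₐ[K₁] Ω := IsAlgClosed.lift
  let _ : Algebra Ω₁ Ω := φ.toRingHom.toAlgebra
  have hst1 : IsScalarTower K₁ Ω₁ Ω := IsScalarTower.of_algebraMap_eq fun z => (φ.commutes z).symm
  have hk : ∀ c : k, φ (algebraMap k Ω₁ c) = algebraMap k Ω c := by
    intro c
    rw [IsScalarTower.algebraMap_apply k K₁ Ω₁, φ.commutes, ← IsScalarTower.algebraMap_apply]
  have hnor : Normal K₁ Ω₁ := IsAlgClosure.normal K₁ Ω₁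
  -- automorphisms
  have hres : ∀ σ : Ω ≃ₐ[K] Ω, ∃ σ₁ : Ω₁ ≃ₐ[K₁] Ω₁, ∀ z, φ (σ₁ z) = σ (φ z) := by
    intro σ
    refine ⟨(σ.restrictScalars K₁).restrictNormal Ω₁, fun z => ?_⟩
    exact (σ.restrictScalars K₁).restrictNormal_commutes Ω₁ z
  -- the maximal unramified extensions
  have hKur : ∀ z ∈ Kur k K₁, φ z ∈ Kur k K := by
    intro z hz W hW σ hσ
    obtain ⟨σ₁, hσ₁⟩ := hres σ
    rw [← hσ₁]
    congr 1
    refine hz (W.comap (φ : Ω₁ →+* Ω)) ?_ σ₁ ⟨?_, ?_⟩
    · intro c
      rw [ValuationSubring.mem_comap]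
      change φ (algebraMap k Ω₁ c) ∈ W
      rw [hk]
      exact hW c
    · intro w
      rw [ValuationSubring.mem_comap, ValuationSubring.mem_comap]
      change φ (σ₁ w) ∈ W ↔ φ w ∈ W
      rw [hσ₁]
      exact hσ.1 _
    · intro w hw
      rw [ValuationSubring.mem_comap] at hw
      rw [← ValuationSubring.mem_nonunits_iff, ValuationSubring.mem_nonunits_iff_or,
        ValuationSubring.mem_comap, map_inv₀]
      have h2 : (φ : Ω₁ →+* Ω) (σ₁ w - w) = σ (φ w) - φ w := by
        rw [map_sub]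
        change φ (σ₁ w) - φ w = _
        rw [hσ₁]
      rw [h2]
      have h3 := hσ.2 _ hw
      rw [← ValuationSubring.mem_nonunits_iff, ValuationSubring.mem_nonunits_iff_or] at h3
      rcases h3 with h3 | h3
      · left
        have h4 : (φ : Ω₁ →+* Ω) (σ₁ w - w) = 0 := h2.trans h3
        exact (map_eq_zero (φ : Ω₁ →+* Ω)).1 h4
      · exact Or.inr h3
  let E₁ := Kur k K₁
  let E := Kur k K
  let φE : E₁ →+* E := ((φ : Ω₁ →+* Ω).comp (algebraMap E₁ Ω₁)).codRestrict E.toSubfield.toSubring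
    (fun z => hKur z z.2)
  have hφE : ∀ z : E₁, ((φE z : E) : Ω) = φ z := fun _ => rfl
  let _ : Algebra E₁ E := φE.toAlgebra
  have hst2 : IsScalarTower K₁ E₁ E := IsScalarTower.of_algebraMap_eq fun z => by
    apply Subtype.ext
    exact (φ.commutes z).symm
  have hnor1 : Normal K₁ E₁ := normal_Kur
  -- the constants
  have hφk : ∀ z : kbar k K₁, φ z ∈ kbar k K := by
    intro z
    rw [mem_algebraicClosure_iff]
    have h1 := mem_algebraicClosure_iff.1 z.2
    exact h1.algHom (φ.restrictScalars k)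
  let e₀ : kbar k K₁ →ₐ[k] kbar k K :=
    ((φ.restrictScalars k).comp (kbar k K₁).val).codRestrict (kbar k K).toSubalgebra hφk
  have he₀ : ∀ z, ((e₀ z : kbar k K) : Ω) = φ z := fun _ => rfl
  have hcl : IsAlgClosed (kbar k K₁) := (algebraicClosure.isAlgClosure k Ω₁).isAlgClosed
  have hbij : Function.Bijective e₀ := by
    let _ : Algebra (kbar k K₁) (kbar k K) := e₀.toRingHom.toAlgebra
    have hst3 : IsScalarTower k (kbar k K₁) (kbar k K) :=
      IsScalarTower.of_algebraMap_eq fun z => (e₀.commutes z).symm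
    have h1 : Algebra.IsAlgebraic k (kbar k K) := algebraicClosure.isAlgebraic k Ω
    have h2 : Algebra.IsIntegral (kbar k K₁) (kbar k K) :=
      ⟨fun z => (h1.isAlgebraic z).isIntegral.tower_top⟩
    exact IsAlgClosed.algebraMap_bijective_of_isIntegral
  let e : kbar k K₁ ≃ₐ[k] kbar k K := AlgEquiv.ofBijective e₀ hbij
  have he : ∀ z, ((e z : kbar k K) : Ω) = φ z := fun _ => rfl
  let conj : Gk k K₁ →* Gk k K := (AlgEquiv.autCongr e).toMonoidHom
  have hconj : ∀ γ z, conj γ (e z) = e (γ z) := by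
    intro γ z
    change e (γ (e.symm (e z))) = _
    rw [AlgEquiv.symm_apply_apply]
  let f : Gk k K₁ →* Pi1 k K₁ := (AlgEquiv.restrictNormalHom E₁).comp
    ((AlgEquiv.restrictScalarsHom K₁).comp (s.toHom.comp conj))
  have hf : ∀ (γ : Gk k K₁) (w : E₁), (φ (f γ w) : Ω) = (s.toHom (conj γ) (φE w) : E) := by
    intro γ w
    have h1 := AlgEquiv.restrictNormal_commutes (F := K₁) (K₁ := E)
      ((s.toHom (conj γ)).restrictScalars K₁) E₁ w
    exact congrArg Subtype.val h1
  refine ⟨⟨f, ?_, ?_⟩, φ, hKur, ?_, ?_, ?_⟩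
  · -- continuity
    refine continuous_of_continuousAt_one f ?_
    rw [ContinuousAt, map_one]
    intro A hA
    rw [krullTopology_mem_nhds_one_iff] at hA
    obtain ⟨D, hD, hDA⟩ := hA
    let b := Module.finBasis K₁ D
    have hL : ∀ i, ∃ L : IntermediateField k (kbar k K), FiniteDimensional k L ∧
        ∀ σ ∈ L.fixingSubgroup, s.toHom σ (φE (b i : E₁)) = φE (b i : E₁) := fun i =>
      exists_finite_level s _
    choose L hLfin hL using hL
    rw [Filter.mem_map, krullTopology_mem_nhds_one_iff]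
    have hfin : ∀ i, FiniteDimensional k ((L i).comap (e : kbar k K₁ →ₐ[k] kbar k K)) := by
      intro i
      have := hLfin i
      let g : ((L i).comap (e : kbar k K₁ →ₐ[k] kbar k K)) →ₗ[k] L i :=
        { toFun := fun z => ⟨e z, z.2⟩
          map_add' := fun a b => Subtype.ext (map_add e (a : kbar k K₁) b)
          map_smul' := fun c a => Subtype.ext (map_smul e c (a : kbar k K₁)) }
      refine Module.Finite.of_injective g ?_
      intro a b hab
      exact Subtype.ext (e.injective (congrArg Subtype.val hab))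
    refine ⟨⨆ i, (L i).comap (e : kbar k K₁ →ₐ[k] kbar k K), ?_, ?_⟩
    · exact IntermediateField.finiteDimensional_iSup_of_finite
    · intro γ hγ
      refine hDA ?_
      rw [SetLike.mem_coe, IntermediateField.mem_fixingSubgroup_iff] at hγ ⊢
      have h1 : ∀ i, f γ (b i : E₁) = b i := by
        intro i
        have h2 : conj γ ∈ (L i).fixingSubgroup := by
          rw [IntermediateField.mem_fixingSubgroup_iff]
          intro z hz
          obtain ⟨z', rfl⟩ := e.surjective z
          rw [hconj]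
          congr 1
          refine hγ z' ?_
          exact (le_iSup (fun i => (L i).comap (e : kbar k K₁ →ₐ[k] kbar k K)) i) hz
        have h3 := hL i _ h2
        have h4 := hf γ (b i : E₁)
        rw [h3] at h4
        exact Subtype.ext (φ.toRingHom.injective h4)
      intro x hx
      have h2 : x = ∑ i, algebraMap K₁ E₁ (b.repr ⟨x, hx⟩ i) * (b i : E₁) := by
        have h3 := congrArg (fun z : D => (z : E₁)) (b.sum_repr ⟨x, hx⟩)
        simp only [AddSubmonoidClass.coe_finsetSum, IntermediateField.coe_smul] at h3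
        refine h3.symm.trans (Finset.sum_congr rfl fun i _ => ?_)
        rw [Algebra.smul_def]
      change f γ x = x
      rw [h2, map_sum]
      refine Finset.sum_congr rfl fun i _ => ?_
      rw [map_mul, AlgEquiv.commutes, h1]
  · intro γ z w hw
    apply φ.toRingHom.injective
    change φ (f γ w) = φ (γ z)
    rw [hf γ w, ← he, ← hconj]
    refine s.isSection (conj γ) (e z) (φE w) ?_
    rw [hφE, hw, he]
  · intro z hz
    obtain ⟨z₁, hz₁⟩ := e.surjective ⟨z, mem_algebraicClosure_iff.2 hz⟩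
    refine ⟨z₁, mem_algebraicClosure_iff.1 z₁.2, ?_⟩
    rw [← he, hz₁]
  · intro z₁ hz₁
    exact mem_algebraicClosure_iff.1 (hφk ⟨z₁, mem_algebraicClosure_iff.2 hz₁⟩)
  · intro g
    refine ⟨(AlgEquiv.autCongr e).symm g, fun z hz => ?_⟩
    have h1 := hf ((AlgEquiv.autCongr e).symm g) z
    have h2 : conj ((AlgEquiv.autCongr e).symm g) = g := (AlgEquiv.autCongr e).apply_symm_apply g
    rw [h2] at h1
    exact h1.symm

section transfer

variable {k K0 K1 : Type} [Field k] [CharZero k] [Field K0] [Field K1] [Algebra k K0]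
  [Algebra k K1] [Algebra K0 K1] [IsScalarTower k K0 K1]
  {Kc : Type} [Field Kc] [Algebra k Kc] [Algebra K0 Kc] [IsScalarTower k K0 Kc]

/-- transfer of a section of the twist, with the compatibility -/
theorem exists_actY {h : K0} {r : K1} (hr : r ^ 2 = algebraMap K0 K1 h)
    (hK1 : IntermediateField.adjoin K0 {r} = ⊤) [FiniteDimensional K0 K1]
    [FiniteDimensional K0 Kc] {c : k} (hc : c ≠ 0) {y : Kc}
    (hy : y ^ 2 = algebraMap k Kc c * algebraMap K0 Kc h)
    (hKc : IntermediateField.adjoin K0 {y} = ⊤) (s : GaloisSection k Kc) :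
    letI : Algebra K0 (UU k K1) := (jU k K0 K1).toAlgebra
    ∃ Φ : ((kbar k K1) ≃ₐ[k] (kbar k K1)) →* (UU k K1 ≃+* UU k K1),
      Act (K0 := K0) (rU k r) c Φ ∧ ∃ j : UU k K1 →+* AlgebraicClosure Kc,
        (∀ x : K0, j (algebraMap K0 (UU k K1) x) =
          algebraMap Kc (AlgebraicClosure Kc) (algebraMap K0 Kc x)) ∧
        (∀ z : kbar k K1, IsAlgebraic k (j (algebraMap (kbar k K1) (UU k K1) z))) ∧
        (∀ z : AlgebraicClosure Kc, IsAlgebraic k z → ∃ z' : kbar k K1,
          j (algebraMap (kbar k K1) (UU k K1) z') = z) ∧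
        (∀ u, j u ∈ Kur k Kc) ∧
        ∀ g : Gk k Kc, ∃ σ : (kbar k K1) ≃ₐ[k] (kbar k K1), ∀ (u : UU k K1) (hu : j u ∈ Kur k Kc),
          (s.toHom g ⟨j u, hu⟩ : AlgebraicClosure Kc) = j (Φ σ u) := by
  letI i0 : Algebra K0 (UU k K1) := (jU k K0 K1).toAlgebra
  have halg0 : Algebra.IsAlgebraic K0 (AlgebraicClosure K1) :=
    Algebra.IsAlgebraic.trans K0 K1 (AlgebraicClosure K1)
  have hac0 : IsAlgClosure K0 (AlgebraicClosure K1) := ⟨inferInstance, halg0⟩
  have halgc : Algebra.IsAlgebraic K0 (AlgebraicClosure Kc) :=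
    Algebra.IsAlgebraic.trans K0 Kc (AlgebraicClosure Kc)
  have hacc : IsAlgClosure K0 (AlgebraicClosure Kc) := ⟨inferInstance, halgc⟩
  let ψ : AlgebraicClosure Kc ≃ₐ[K0] AlgebraicClosure K1 :=
    IsAlgClosure.equiv K0 (AlgebraicClosure Kc) (AlgebraicClosure K1)
  have hψ : ∀ x : K0, ψ (algebraMap Kc (AlgebraicClosure Kc) (algebraMap K0 Kc x)) =
      algebraMap K1 (AlgebraicClosure K1) (algebraMap K0 K1 x) := by
    intro x
    rw [← IsScalarTower.algebraMap_apply K0 Kc (AlgebraicClosure Kc),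
      ← IsScalarTower.algebraMap_apply K0 K1 (AlgebraicClosure K1)]
    exact ψ.commutes x
  have hψ' : ∀ x : K0, ψ.symm (algebraMap K1 (AlgebraicClosure K1) (algebraMap K0 K1 x)) =
      algebraMap Kc (AlgebraicClosure Kc) (algebraMap K0 Kc x) := by
    intro x
    rw [← hψ, AlgEquiv.symm_apply_apply]
  have hk : ∀ c : k, ψ (algebraMap k (AlgebraicClosure Kc) c) =
      algebraMap k (AlgebraicClosure K1) c := by
    intro c
    rw [IsScalarTower.algebraMap_apply k Kc (AlgebraicClosure Kc),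
      IsScalarTower.algebraMap_apply k K0 Kc, hψ, ← IsScalarTower.algebraMap_apply k K0 K1,
      ← IsScalarTower.algebraMap_apply]
  have hk' : ∀ c : k, ψ.symm (algebraMap k (AlgebraicClosure K1) c) =
      algebraMap k (AlgebraicClosure Kc) c := by
    intro c
    rw [← hk, AlgEquiv.symm_apply_apply]
  let ψk : AlgebraicClosure Kc ≃ₐ[k] AlgebraicClosure K1 :=
    AlgEquiv.ofRingEquiv (f := (ψ : AlgebraicClosure Kc ≃+* AlgebraicClosure K1)) hk
  have hbar : ∀ z : AlgebraicClosure Kc, z ∈ kbar k Kc → ψ z ∈ kbar k K1 := by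
    intro z hz
    rw [mem_algebraicClosure_iff] at hz ⊢
    exact hz.algHom (ψk : AlgebraicClosure Kc →ₐ[k] AlgebraicClosure K1)
  have hbar' : ∀ z : AlgebraicClosure K1, z ∈ kbar k K1 → ψ.symm z ∈ kbar k Kc := by
    intro z hz
    rw [mem_algebraicClosure_iff] at hz ⊢
    exact hz.algHom (ψk.symm : AlgebraicClosure K1 →ₐ[k] AlgebraicClosure Kc)
  -- a square root of `c`
  have hsq : ∀ d : AlgebraicClosure K1, d ^ 2 = algebraMap k (AlgebraicClosure K1) c →
      d * algebraMap K1 (AlgebraicClosure K1) r = ψ (algebraMap Kc (AlgebraicClosure Kc) y) ∨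
      d * algebraMap K1 (AlgebraicClosure K1) r =
        -ψ (algebraMap Kc (AlgebraicClosure Kc) y) := by
    intro d hd
    rw [← sq_eq_sq_iff_eq_or_eq_neg, mul_pow, hd, ← map_pow, hr, ← map_pow, ← map_pow, hy, map_mul,
      map_mul, hψ, ← IsScalarTower.algebraMap_apply k Kc (AlgebraicClosure Kc), hk]
  obtain ⟨d, hd⟩ := IsAlgClosed.exists_pow_nat_eq (algebraMap k (AlgebraicClosure K1) c)
    (n := 2) (by norm_num)
  have hd0 : d ≠ 0 := by
    intro h0
    rw [h0, zero_pow (by norm_num)] at hd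
    exact hc ((map_eq_zero (algebraMap k (AlgebraicClosure K1))).1 hd.symm)
  have hdk : d ∈ kbar k K1 := by
    rw [mem_algebraicClosure_iff]
    refine IsAlgebraic.of_pow (n := 2) (by norm_num) ?_
    rw [hd]
    exact isAlgebraic_algebraMap c
  have hdM : d ∈ KK k K1 := (KK k K1).algebraMap_mem (⟨d, hdk⟩ : kbar k K1)
  have hrM : algebraMap K1 (AlgebraicClosure K1) r ∈ KK k K1 := algebraMap_mem_KK _
  have hψy : ψ (algebraMap Kc (AlgebraicClosure Kc) y) ∈ KK k K1 := by
    rcases hsq d hd with h1 | h1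
    · rw [← h1]; exact mul_mem hdM hrM
    · rw [← neg_neg (ψ (algebraMap Kc (AlgebraicClosure Kc) y)), ← h1]
      exact neg_mem (mul_mem hdM hrM)
  have hψr : ψ.symm (algebraMap K1 (AlgebraicClosure K1) r) ∈ KK k Kc := by
    have h2 : ψ.symm d ∈ KK k Kc :=
      (KK k Kc).algebraMap_mem (⟨ψ.symm d, hbar' d hdk⟩ : kbar k Kc)
    have h3 : algebraMap Kc (AlgebraicClosure Kc) y ∈ KK k Kc := algebraMap_mem_KK _
    have h4 : ψ.symm (algebraMap K1 (AlgebraicClosure K1) r) =
        (ψ.symm d)⁻¹ * (ψ.symm (d * algebraMap K1 (AlgebraicClosure K1) r)) := by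
      rw [map_mul, ← mul_assoc, inv_mul_cancel₀ ((map_ne_zero_iff ψ.symm ψ.symm.injective).2 hd0),
        one_mul]
    rw [h4]
    refine mul_mem (inv_mem h2) ?_
    rcases hsq d hd with h1 | h1
    · rw [h1, AlgEquiv.symm_apply_apply]; exact h3
    · rw [h1, map_neg, AlgEquiv.symm_apply_apply]; exact neg_mem h3
  have hKc' : ∀ x : Kc, ψ (algebraMap Kc (AlgebraicClosure Kc) x) ∈ KK k K1 :=
    map_mem_KK hKc (ψ : AlgebraicClosure Kc →+* AlgebraicClosure K1) hψ hψy
  have hK1' : ∀ x : K1, ψ.symm (algebraMap K1 (AlgebraicClosure K1) x) ∈ KK k Kc :=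
    map_mem_KK hK1 (ψ.symm : AlgebraicClosure K1 →+* AlgebraicClosure Kc) hψ' hψr
  have hur : ∀ z : AlgebraicClosure Kc, z ∈ Kur k Kc → ψ z ∈ Kur k K1 := fun z hz =>
    kur_of_iso (ψ.symm : AlgebraicClosure K1 ≃+* AlgebraicClosure Kc) hk' hKc' hz
  have hur' : ∀ z : AlgebraicClosure K1, z ∈ Kur k K1 → ψ.symm z ∈ Kur k Kc := fun z hz =>
    kur_of_iso (ψ : AlgebraicClosure Kc ≃+* AlgebraicClosure K1) hk hK1' hz
  let ρ : Kur k Kc ≃+* UU k K1 :=
    { toFun := fun z => ⟨ψ z, mem_UU.2 (hur z z.2)⟩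
      invFun := fun z => ⟨ψ.symm z, hur' z (mem_UU.1 z.2)⟩
      left_inv := fun z => Subtype.ext (ψ.symm_apply_apply z)
      right_inv := fun z => Subtype.ext (ψ.apply_symm_apply z)
      map_mul' := fun a b => Subtype.ext (map_mul ψ (a : AlgebraicClosure Kc) b)
      map_add' := fun a b => Subtype.ext (map_add ψ (a : AlgebraicClosure Kc) b) }
  let e : kbar k Kc ≃ₐ[k] kbar k K1 :=
    { toFun := fun z => ⟨ψ z, hbar z z.2⟩
      invFun := fun z => ⟨ψ.symm z, hbar' z z.2⟩
      left_inv := fun z => Subtype.ext (ψ.symm_apply_apply z)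
      right_inv := fun z => Subtype.ext (ψ.apply_symm_apply z)
      map_mul' := fun a b => Subtype.ext (map_mul ψ (a : AlgebraicClosure Kc) b)
      map_add' := fun a b => Subtype.ext (map_add ψ (a : AlgebraicClosure Kc) b)
      commutes' := fun c => Subtype.ext (hk c) }
  refine ⟨Phi s ρ e, act_Phi s ρ e (fun z => rfl) (fun x => Subtype.ext (hψ x)) y c _ ?_,
    (algebraMap (Kur k Kc) (AlgebraicClosure Kc)).comp (ρ.symm : UU k K1 →+* Kur k Kc), ?_, ?_, ?_,
    ?_, ?_⟩
  · intro d' hd'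
    have h1 : (d' : AlgebraicClosure K1) ^ 2 = algebraMap k (AlgebraicClosure K1) c :=
      congrArg Subtype.val hd'
    rcases hsq d' h1 with h2 | h2
    · left
      exact Subtype.ext h2
    · right
      exact Subtype.ext h2
  · intro x
    exact hψ' x
  · intro z
    exact mem_algebraicClosure_iff.1 (e.symm z).2
  · intro z hz
    refine ⟨e ⟨z, mem_algebraicClosure_iff.2 hz⟩, ?_⟩
    exact ψ.symm_apply_apply z
  · intro u
    exact (ρ.symm u).2
  · intro g
    refine ⟨(e.symm.trans g).trans e, fun u hu => ?_⟩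
    obtain ⟨z, rfl⟩ := ρ.surjective u
    have h1 : (e.trans ((e.symm.trans g).trans e)).trans e.symm = g := by
      apply AlgEquiv.ext
      intro z
      change e.symm (e (g (e.symm (e z)))) = g z
      rw [e.symm_apply_apply, e.symm_apply_apply]
    change (s.toHom g ⟨(ρ.symm (ρ z) : AlgebraicClosure Kc), hu⟩ : AlgebraicClosure Kc) =
      (ρ.symm (Phi s ρ e ((e.symm.trans g).trans e) (ρ z)) : AlgebraicClosure Kc)
    have h2 : (⟨(ρ.symm (ρ z) : AlgebraicClosure Kc), hu⟩ : Kur k Kc) = z :=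
      Subtype.ext (congrArg Subtype.val (ρ.symm_apply_apply z))
    have h3 : ρ.symm (Phi s ρ e ((e.symm.trans g).trans e) (ρ z)) = s.toHom g z := by
      rw [Phi_apply, h1, ρ.symm_apply_apply]
    rw [h2, h3]

end transfer

/-- **The transfer**, with the compatibility. -/
theorem trX (k K0 : Type) [Field k] [NumberField k] [Field K0] [Algebra k K0] (h : K0)
    (hg : GoodCurve k h) :
    ∃ (E U : Type) (_ : Field E) (_ : Field U) (_ : Algebra k E) (_ : Algebra E U)
      (_ : Algebra K0 U) (_ : Algebra k U) (_ : IsScalarTower k E U) (_ : IsScalarTower k K0 U)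
      (r : U), Geo k K0 E U h r ∧ ∀ c : k, c ≠ 0 → ∀ (K : Type) [Field K] [Algebra k K]
        [Algebra K0 K] [IsScalarTower k K0 K] (y : K),
        y ^ 2 = algebraMap k K c * algebraMap K0 K h → ∀ s : GaloisSection k K,
        ∃ Φ : (E ≃ₐ[k] E) →* (U ≃+* U), Act (K0 := K0) r c Φ ∧
          ∃ j : U →+* AlgebraicClosure K,
            (∀ x : K0, j (algebraMap K0 U x) =
              algebraMap K (AlgebraicClosure K) (algebraMap K0 K x)) ∧
            (∀ z : E, IsAlgebraic k (j (algebraMap E U z))) ∧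
            (∀ z : AlgebraicClosure K, IsAlgebraic k z → ∃ z' : E, j (algebraMap E U z') = z) ∧
            (∀ u, j u ∈ Kur k K) ∧
            ∀ g : Gk k K, ∃ σ : E ≃ₐ[k] E, ∀ (u : U) (hu : j u ∈ Kur k K),
              (s.toHom g ⟨j u, hu⟩ : AlgebraicClosure K) = j (Φ σ u) := by
  obtain ⟨r₀, hr₀⟩ := IsAlgClosed.exists_pow_nat_eq (algebraMap K0 (AlgebraicClosure K0) h)
    (n := 2) (by norm_num)
  let K1 : IntermediateField K0 (AlgebraicClosure K0) := IntermediateField.adjoin K0 {r₀}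
  have hfd : FiniteDimensional K0 K1 := by
    refine IntermediateField.adjoin.finiteDimensional ?_
    exact (Algebra.IsAlgebraic.isAlgebraic r₀).isIntegral
  let r : K1 := ⟨r₀, IntermediateField.mem_adjoin_simple_self K0 r₀⟩
  have hr : r ^ 2 = algebraMap K0 K1 h := Subtype.ext hr₀
  have hK1 : IntermediateField.adjoin K0 {r} = ⊤ := by
    apply IntermediateField.map_injective K1.val
    rw [IntermediateField.adjoin_map, Set.image_singleton, ← AlgHom.fieldRange_eq_map,
      IntermediateField.fieldRange_val]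
    rfl
  letI i0 : Algebra K0 (UU k K1) := (jU k K0 K1).toAlgebra
  refine ⟨kbar k K1, UU k K1, inferInstance, inferInstance, inferInstance, inferInstance, i0,
    inferInstance, inferInstance, ?_, rU k r, geo h r hg hr hK1, ?_⟩
  · refine IsScalarTower.of_algebraMap_eq fun x => ?_
    apply Subtype.ext
    change algebraMap k (AlgebraicClosure K1) x =
      algebraMap K1 (AlgebraicClosure K1) (algebraMap K0 K1 (algebraMap k K0 x))
    rw [← IsScalarTower.algebraMap_apply k K0 K1,
      ← IsScalarTower.algebraMap_apply k K1 (AlgebraicClosure K1)]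
  · intro c hc K _ _ _ _ y hy s
    let Kc : IntermediateField K0 K := IntermediateField.adjoin K0 {y}
    let y' : Kc := ⟨y, IntermediateField.mem_adjoin_simple_self K0 y⟩
    have hstc : IsScalarTower k Kc K := IsScalarTower.of_algebraMap_eq fun x => rfl
    obtain ⟨s', φ, hφ1, hφ2, hφ3, hφ4⟩ := pushX (k := k) (K₁ := Kc) s
    have hy' : y' ^ 2 = algebraMap k Kc c * algebraMap K0 Kc h := Subtype.ext hy
    have hKc : IntermediateField.adjoin K0 {y'} = ⊤ := by
      apply IntermediateField.map_injective Kc.val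
      rw [IntermediateField.adjoin_map, Set.image_singleton, ← AlgHom.fieldRange_eq_map,
        IntermediateField.fieldRange_val]
      rfl
    have hfc : FiniteDimensional K0 Kc := by
      refine IntermediateField.adjoin.finiteDimensional ?_
      refine IsIntegral.of_pow (n := 2) (by norm_num) ?_
      rw [hy, IsScalarTower.algebraMap_apply k K0 K, ← map_mul]
      exact isIntegral_algebraMap
    obtain ⟨Φ, hΦ, j, hj1, hj2, hj3, hj4, hj5⟩ := exists_actY hr hK1 hc hy' hKc s'
    refine ⟨Φ, hΦ, (φ : AlgebraicClosure Kc →+* AlgebraicClosure K).comp j, ?_, ?_, ?_, ?_, ?_⟩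
    · intro x
      change φ (j _) = _
      rw [hj1, φ.commutes]
      exact IsScalarTower.algebraMap_apply Kc K (AlgebraicClosure K) (algebraMap K0 Kc x)
    · intro z
      exact hφ3 _ (hj2 z)
    · intro z hz
      obtain ⟨z₁, hz₁, rfl⟩ := hφ2 z hz
      obtain ⟨z', rfl⟩ := hj3 z₁ hz₁
      exact ⟨z', rfl⟩
    · intro u
      exact hφ1 _ (hj4 u)
    · intro g
      obtain ⟨g₁, hg₁⟩ := hφ4 g
      obtain ⟨σ, hσ⟩ := hj5 g₁
      refine ⟨σ, fun u hu => ?_⟩
      change _ = φ (j (Φ σ u))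
      rw [← hσ u (hj4 u)]
      exact hg₁ ⟨j u, hj4 u⟩ hu


end

end Pool.Agent.TW
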